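import Pool.Agent.H47.LInf.Crit

set_option autoImplicit false
set_option linter.unusedSectionVars false

namespace Pool.Agent.H47.LInf

universe u

section
variable {G : Type u} [AddCommGroup G] [Lattice G] [IsOrderedAddMonoid G]

/-- a maximal prime ideal, given as a predicate -/
structure MaxI (e : G) (I : G → Prop) : Prop where
  zero : I 0
  solid : ∀ x y, |y| ≤ |x| → I x → I y
  add : ∀ x y, I x → I y → I (x + y)
  prime : ∀ x, I (x ⊔ 0) ∨ I ((-x) ⊔ 0)
  unit : ¬ I e
  max : ∀ x, ¬ I x → ∃ n : ℕ, I ((e - n • |x|) ⊔ 0)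

/-- the order of the quotient -/
def LeI (I : G → Prop) (x y : G) : Prop := I ((x - y) ⊔ 0)

variable {e : G} {I : G → Prop}

omit [IsOrderedAddMonoid G] in
lemma LeI.of_le [IsOrderedAddMonoid G] (hI : MaxI e I) {x y : G} (h : x ≤ y) : LeI I x y := by
  have : (x - y) ⊔ 0 = 0 := sup_eq_right.2 (sub_nonpos.2 h)
  simp only [LeI, this]
  exact hI.zero

lemma MaxI.of_le (hI : MaxI e I) {x y : G} (h0 : 0 ≤ y) (hyx : y ≤ x) (hx : I x) : I y := by
  refine hI.solid x y ?_ hx
  rw [abs_of_nonneg h0, abs_of_nonneg (h0.trans hyx)]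
  exact hyx

lemma LeI.trans (hI : MaxI e I) {x y z : G} (h1 : LeI I x y) (h2 : LeI I y z) : LeI I x z := by
  have h3 := hI.add _ _ h1 h2
  refine hI.of_le le_sup_right ?_ h3
  apply sup_le
  · calc x - z = (x - y) + (y - z) := by abel
      _ ≤ _ := add_le_add le_sup_left le_sup_left
  · exact add_nonneg le_sup_right le_sup_right

lemma LeI.total (hI : MaxI e I) (x y : G) : LeI I x y ∨ LeI I y x := by
  rcases hI.prime (x - y) with h | h
  · exact Or.inl h
  · right
    simpa [LeI] using h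

omit [IsOrderedAddMonoid G] in
lemma LeI.add_right_iff {x y : G} (z : G) : LeI I (x + z) (y + z) ↔ LeI I x y := by
  simp [LeI]

lemma LeI.add (hI : MaxI e I) {x y x' y' : G} (h1 : LeI I x y) (h2 : LeI I x' y') :
    LeI I (x + x') (y + y') := by
  have h3 : LeI I (x + x') (y + x') := (LeI.add_right_iff x').2 h1
  have h4 : LeI I (y + x') (y + y') := by
    rw [add_comm y x', add_comm y y']
    exact (LeI.add_right_iff y).2 h2
  exact h3.trans hI h4

lemma LeI.nsmul (hI : MaxI e I) {x y : G} (h1 : LeI I x y) (n : ℕ) : LeI I (n • x) (n • y) := by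
  induction n with
  | zero => simpa using LeI.of_le hI (le_refl (0 : G))
  | succ n ih =>
    rw [succ_nsmul, succ_nsmul]
    exact ih.add hI h1

lemma MaxI.e_not_le (hI : MaxI e I) (he : 0 ≤ e) : ¬ LeI I e 0 := by
  intro h
  apply hI.unit
  have : (e - 0) ⊔ 0 = e := by rw [sub_zero]; exact sup_eq_left.2 he
  rw [LeI, this] at h
  exact h

/-- comparison of two elements with the same cuts -/
theorem compare (hI : MaxI e I) (he : 0 ≤ e) {f g : G} (hf : 0 ≤ f) (hg : 0 ≤ g)
    (hunit : ∃ n : ℕ, g ≤ n • e)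
    (hcut : ∀ m n : ℕ, LeI I (n • g) (m • e) → LeI I (n • f) (m • e)) : LeI I f g := by
  classical
  by_contra hcon
  obtain ⟨N, hN⟩ := hI.max _ hcon
  have h0 : 0 ≤ (f - g) ⊔ 0 := le_sup_right
  rw [abs_of_nonneg h0] at hN
  have h1 : LeI I e (N • ((f - g) ⊔ 0)) := hN
  have h2 : LeI I ((f - g) ⊔ 0) (f - g) := by
    have h3 : LeI I g f := by
      rcases LeI.total hI f g with h | h
      · exact absurd h hcon
      · exact h
    have h4 : (f - g) ⊔ 0 - (f - g) = (g - f) ⊔ 0 := by
      rw [sup_sub]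
      simp [sup_comm]
    unfold LeI
    rw [h4, sup_assoc, sup_idem]
    exact h3
  have h3 : LeI I (e + N • g) (N • f) := by
    have h4 := h1.trans hI (h2.nsmul hI N)
    have h5 : N • f = N • (f - g) + N • g := by rw [← nsmul_add, sub_add_cancel]
    rw [h5]
    exact (LeI.add_right_iff _).2 h4
  have hex : ∃ m : ℕ, LeI I (N • g) (m • e) := by
    obtain ⟨n, hn⟩ := hunit
    refine ⟨n * N, LeI.of_le hI ?_⟩
    rw [mul_nsmul]
    exact nsmul_le_nsmul_right hn N
  have h6 := Nat.find_spec hex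
  have h7 := h3.trans hI (hcut _ _ h6)
  rcases Nat.eq_zero_or_pos (Nat.find hex) with h8 | h8
  · rw [h8, zero_nsmul] at h7
    apply hI.e_not_le he
    refine (LeI.of_le hI ?_).trans hI h7
    exact le_add_of_nonneg_right (nsmul_nonneg hg N)
  · obtain ⟨m, hm⟩ := Nat.exists_eq_succ_of_ne_zero h8.ne'
    have h9 : ¬ LeI I (N • g) (m • e) := Nat.find_min hex (by omega)
    apply h9
    rw [hm, Nat.succ_eq_add_one, succ_nsmul, add_comm e (N • g)] at h7
    exact (LeI.add_right_iff e).1 h7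

/-- a nonzero element is not infinitely small -/
theorem exists_large (hI : MaxI e I) (he : 0 ≤ e) {f : G} (hf : 0 ≤ f) (hne : ¬ I f) :
    ∃ n : ℕ, ¬ LeI I (n • f) (1 • e) := by
  obtain ⟨N, hN⟩ := hI.max _ hne
  rw [abs_of_nonneg hf] at hN
  have h1 : LeI I e (N • f) := hN
  refine ⟨N + N, fun h2 => hI.e_not_le he ?_⟩
  have h3 : LeI I (e + e) ((N + N) • f) := by
    rw [add_nsmul]
    exact h1.add hI h1
  have h4 := h3.trans hI h2
  rw [one_nsmul] at h4
  have h5 : LeI I (e + e) (0 + e) := by rwa [zero_add]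
  exact (LeI.add_right_iff e).1 h5

end

end Pool.Agent.H47.LInf
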