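import Pool.Agent.H47.LInf.Gam
import Pool.Agent.H47.LInf.MaxI

set_option autoImplicit false
set_option linter.unusedSectionVars false

namespace Pool.Agent.H47.LInf

open Cardinal

universe u

section
variable {G : Type u} [AddCommGroup G] [Lattice G] [IsOrderedAddMonoid G]
  {P : Type u} {κ : Cardinal.{u}} {hκ : ℵ₀ ≤ κ} {h : ℕ ≃ ℕ}

lemma bot_mem : (⊥ : P → P → Pt) ∈ Gam h κ hκ P := by
  refine ⟨fun p q => DY_bot, ?_, ∅, by simp, fun p => ⟨⊥, fun q _ => ⟨rfl, rfl⟩⟩, ⊥, Or.inl rfl,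
    fun p _ q _ => rfl⟩
  refine (Set.finite_singleton (⊥ : Pt)).subset ?_
  rintro _ ⟨pq, rfl⟩
  rfl

lemma top_mem : (⊤ : P → P → Pt) ∈ Gam h κ hκ P := by
  refine ⟨fun p q => DY_top, ?_, ∅, by simp, fun p => ⟨⊤, fun q _ => ⟨rfl, rfl⟩⟩, ⊤, Or.inr rfl,
    fun p _ q _ => rfl⟩
  refine (Set.finite_singleton (⊤ : Pt)).subset ?_
  rintro _ ⟨pq, rfl⟩
  rfl

/-- a representation of `Γ` -/
structure RepOf (s : G → P → P → Pt) (κ : Cardinal.{u}) (hκ : ℵ₀ ≤ κ) (h : ℕ ≃ ℕ) (e : G) : Prop where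
  mem : ∀ x, s x ∈ Gam h κ hκ P
  surj : ∀ d ∈ Gam h κ hκ P, ∃ x, s x = d
  le_iff : ∀ x y, s x ≤ s y ↔ ∃ n : ℕ, |x| ≤ n • |y|
  nonneg : 0 ≤ e
  unit : ∀ x : G, ∃ n : ℕ, x ≤ n • e

variable {s : G → P → P → Pt} {e : G}

lemma RepOf.zero (H : RepOf s κ hκ h e) : s 0 = ⊥ := by
  obtain ⟨z, hz⟩ := H.surj ⊥ bot_mem
  have : s 0 ≤ s z := (H.le_iff _ _).2 ⟨0, by simp⟩
  rw [hz] at this
  exact le_bot_iff.1 this

lemma RepOf.top (H : RepOf s κ hκ h e) : s e = ⊤ := by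
  obtain ⟨z, hz⟩ := H.surj ⊤ top_mem
  have : s z ≤ s e := by
    rw [H.le_iff]
    obtain ⟨n, hn⟩ := H.unit |z|
    exact ⟨n, by rwa [abs_of_nonneg H.nonneg]⟩
  rw [hz] at this
  exact top_le_iff.1 this

lemma RepOf.mono (H : RepOf s κ hκ h e) {x y : G} (hxy : |x| ≤ |y|) : s x ≤ s y :=
  (H.le_iff _ _).2 ⟨1, by simpa using hxy⟩

lemma RepOf.nsmul (H : RepOf s κ hκ h e) (n : ℕ) (x : G) : s (n • x) ≤ s x := by
  rw [H.le_iff]
  refine ⟨n, ?_⟩
  rw [abs_le']
  constructor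
  · exact nsmul_le_nsmul_right (le_abs_self x) n
  · rw [← smul_neg]
    exact nsmul_le_nsmul_right (neg_le_abs x) n

lemma RepOf.abs (H : RepOf s κ hκ h e) (x : G) : s |x| = s x := by
  apply le_antisymm
  · exact H.mono (by rw [abs_abs])
  · exact H.mono (by rw [abs_abs])

lemma RepOf.add (H : RepOf s κ hκ h e) (x y : G) : s (x + y) ≤ s x ⊔ s y := by
  obtain ⟨z, hz⟩ := H.surj _ ((Gam h κ hκ P).supClosed (H.mem x) (H.mem y))
  have h1 : s x ≤ s z := by rw [hz]; exact le_sup_left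
  have h2 : s y ≤ s z := by rw [hz]; exact le_sup_right
  obtain ⟨n, hn⟩ := (H.le_iff _ _).1 h1
  obtain ⟨m, hm⟩ := (H.le_iff _ _).1 h2
  rw [← hz, H.le_iff]
  refine ⟨n + m, ?_⟩
  rw [add_nsmul]
  exact (abs_add_le x y).trans (add_le_add hn hm)

lemma inf_nsmul_le {a b : G} (ha : 0 ≤ a) (hb : 0 ≤ b) (hab : a ⊓ b = 0) (n m : ℕ) :
    (n • a) ⊓ (m • b) = 0 := by
  have key : ∀ (a b : G), 0 ≤ a → 0 ≤ b → a ⊓ b = 0 → ∀ n : ℕ, (n • a) ⊓ b = 0 := by
    intro a b ha hb hab n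
    induction n with
    | zero => simpa using hb
    | succ n ih =>
      apply le_antisymm _ (le_inf (nsmul_nonneg ha _) hb)
      have h1 : ((n + 1) • a) ⊓ b ≤ (n • a) ⊓ b + a ⊓ b := by
        rw [succ_nsmul]
        rw [inf_add, add_inf, add_inf]
        refine le_inf (le_inf inf_le_left ?_) (le_inf ?_ ?_)
        · exact inf_le_right.trans (le_add_of_nonneg_left (nsmul_nonneg ha n))
        · exact inf_le_right.trans (le_add_of_nonneg_right ha)
        · exact inf_le_right.trans (le_add_of_nonneg_left hb)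
      rw [ih, hab, add_zero] at h1
      exact h1
  have h1 := key a b ha hb hab n
  have h2 := key b (n • a) hb (nsmul_nonneg ha n) (by rw [inf_comm]; exact h1) m
  rw [inf_comm]
  exact h2

lemma RepOf.disj (H : RepOf s κ hκ h e) {x y : G} (hx : 0 ≤ x) (hy : 0 ≤ y) (hxy : x ⊓ y = 0) :
    s x ⊓ s y = ⊥ := by
  obtain ⟨z, hz⟩ := H.surj _ ((Gam h κ hκ P).infClosed (H.mem x) (H.mem y))
  have h1 : s z ≤ s x := by rw [hz]; exact inf_le_left
  have h2 : s z ≤ s y := by rw [hz]; exact inf_le_right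
  obtain ⟨n, hn⟩ := (H.le_iff _ _).1 h1
  obtain ⟨m, hm⟩ := (H.le_iff _ _).1 h2
  rw [abs_of_nonneg hx] at hn
  rw [abs_of_nonneg hy] at hm
  have h3 : |z| ≤ 0 := by
    rw [← inf_nsmul_le hx hy hxy n m]
    exact le_inf hn hm
  have h4 : z = 0 := by
    apply le_antisymm
    · exact (le_abs_self z).trans h3
    · have := (neg_le_abs z).trans h3
      exact neg_nonpos.1 this
  rw [← hz, h4, H.zero]

lemma pos_inf_neg (x : G) : (x ⊔ 0) ⊓ ((-x) ⊔ 0) = 0 := by
  have := posPart_inf_negPart_eq_zero x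
  simpa [posPart_def, negPart_def] using this

lemma pos_inf_neg' (x y : G) : ((x - y) ⊔ 0) ⊓ ((y - x) ⊔ 0) = 0 := by
  have := pos_inf_neg (x - y)
  simpa using this

/-- the element with one point removed -/
lemma exists_coatom (p q : P) (k : ℕ) : ∃ M ∈ Gam h κ hκ P, k ∉ (M p q).1 ∧
    ∀ d : P → P → Pt, k ∈ (d p q).1 → M ⊔ d = ⊤ := by
  classical
  refine ⟨fun r t => if r = p ∧ t = q then (({k}ᶜ : Set ℕ), 2) else ⊤, ⟨?_, ?_, {p, q}, ?_, ?_,
    ⊤, Or.inr rfl, ?_⟩, ?_, ?_⟩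
  · intro r t
    simp only
    split_ifs
    · refine ⟨fun hh => ?_, fun _ => ?_⟩
      · exfalso
        have h2 : (2 : Fin 3) = 0 := hh
        exact absurd h2 (by decide)
      show (({k}ᶜ : Set ℕ)ᶜ).Finite
      rw [compl_compl]
      exact Set.finite_singleton k
    · exact DY_top
  · refine (Set.toFinite ({(({k}ᶜ : Set ℕ), 2), ⊤} : Set Pt)).subset ?_
    rintro _ ⟨pq, rfl⟩
    simp only
    split_ifs
    · exact Or.inl rfl
    · exact Or.inr rfl
  · exact ((Set.toFinite ({p, q} : Set P)).lt_aleph0.le).trans hκ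
  · intro r
    refine ⟨⊤, fun t ht => ?_⟩
    simp only [Set.mem_insert_iff, Set.mem_singleton_iff, not_or] at ht
    have h1 : ¬ (r = p ∧ t = q) := fun hh => ht.2 hh.2
    have h2 : ¬ (t = p ∧ r = q) := fun hh => ht.1 hh.1
    constructor
    · exact if_neg h1
    · exact if_neg h2
  · intro r hr t ht
    simp only [Set.mem_insert_iff, Set.mem_singleton_iff, not_or] at hr
    have h1 : ¬ (r = p ∧ t = q) := fun hh => hr.1 hh.1
    exact if_neg h1
  · simp
  · intro d hd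
    funext r t
    simp only [Pi.sup_apply, Pi.top_apply]
    split_ifs with hh
    · obtain ⟨rfl, rfl⟩ := hh
      apply top_le_iff.1
      refine ⟨?_, ?_⟩
      · intro j _
        by_cases hj : j = k
        · right; rw [hj]; exact hd
        · left; exact hj
      · show (⊤ : Fin 3) ≤ 2 ⊔ (d r t).2
        exact le_sup_of_le_left (Fin.le_last _)
    · exact top_sup_eq _

/-- maximality -/
lemma RepOf.max (H : RepOf s κ hκ h e) (p q : P) (k : ℕ) (x : G) (hx : k ∈ (s x p q).1) :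
    ∃ n : ℕ, k ∉ (s ((e - n • |x|) ⊔ 0) p q).1 := by
  obtain ⟨M, hM, hMk, hMd⟩ := exists_coatom (h := h) (κ := κ) (hκ := hκ) p q k
  obtain ⟨z, hz⟩ := H.surj M hM
  have h1 : s e ≤ s (|z| + |x|) := by
    have h2 : M ⊔ s x = ⊤ := hMd _ hx
    have h3 : ⊤ ≤ s (|z| + |x|) := by
      rw [← h2, ← hz]
      apply sup_le
      · apply H.mono
        rw [abs_of_nonneg (add_nonneg (abs_nonneg z) (abs_nonneg x))]
        exact le_add_of_nonneg_right (abs_nonneg x)
      · apply H.mono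
        rw [abs_of_nonneg (add_nonneg (abs_nonneg z) (abs_nonneg x))]
        exact le_add_of_nonneg_left (abs_nonneg z)
    exact le_top.trans h3
  obtain ⟨n, hn⟩ := (H.le_iff _ _).1 h1
  rw [abs_of_nonneg H.nonneg, abs_of_nonneg (add_nonneg (abs_nonneg z) (abs_nonneg x)), nsmul_add] at hn
  refine ⟨n, fun hk => hMk ?_⟩
  have h2 : s ((e - n • |x|) ⊔ 0) ≤ s z := by
    rw [H.le_iff]
    refine ⟨n, ?_⟩
    rw [abs_of_nonneg le_sup_right]
    apply sup_le
    · rw [sub_le_iff_le_add]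
      exact hn
    · exact nsmul_nonneg (abs_nonneg z) n
  rw [hz] at h2
  exact (h2 p q).1 hk

lemma RepOf.maxI (H : RepOf s κ hκ h e) (p q : P) (k : ℕ) : MaxI e (fun x => k ∉ (s x p q).1) where
  zero := by rw [H.zero]; exact Set.notMem_empty k
  solid := fun x y hxy hx hy => hx ((H.mono hxy p q).1 hy)
  add := fun x y hx hy hxy => by
    rcases (H.add x y p q).1 hxy with h1 | h1
    · exact hx h1
    · exact hy h1
  prime := fun x => by
    by_contra hcon
    push Not at hcon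
    have h1 := H.disj (x := x ⊔ 0) (y := (-x) ⊔ 0) le_sup_right le_sup_right (pos_inf_neg x)
    have h2 : k ∈ ((s (x ⊔ 0) ⊓ s ((-x) ⊔ 0)) p q).1 := ⟨by simpa using hcon.1, by simpa using hcon.2⟩
    rw [h1] at h2
    exact h2
  unit := by
    rw [H.top]
    simp
  max := fun x hx => H.max p q k x (by simpa using hx)

end

end Pool.Agent.H47.LInf
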