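import Pool.Agent.H47.LInf.Rep3

set_option autoImplicit false

namespace Pool.Agent.H47.LInf

open Cardinal Filter Topology

universe u

lemma InCu.of_iso {L L' : Type u} [Lattice L] [Lattice L'] (hL : InCu L) (e : L' ≃o L) : InCu L' := by
  obtain ⟨G, i1, i2, i3, h1, h2, ⟨f⟩⟩ := hL
  exact ⟨G, i1, i2, i3, h1, h2, ⟨e.trans f⟩⟩

section
variable {P : Type u} [LinearOrder P] {κ : Cardinal.{u}} (hκ : ℵ₀ ≤ κ)

include hκ in
lemma exists_bound (h1 : ∀ p : P, #(Set.Iic p) ≤ κ) (h2 : κ < #P) (S : Set P) (hS : #S ≤ κ) :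
    ∃ α : P, S ⊆ Set.Iic α := by
  by_contra hcon
  push Not at hcon
  have hcov : (Set.univ : Set P) ⊆ ⋃ s : S, Set.Iic (s : P) := by
    intro a _
    have h3 := hcon a
    rw [Set.not_subset] at h3
    obtain ⟨s, hs, hsa⟩ := h3
    refine Set.mem_iUnion.2 ⟨⟨s, hs⟩, ?_⟩
    simp only [Set.mem_Iic, not_le] at *
    exact hsa.le
  have h4 : #P ≤ κ := by
    rw [← mk_univ]
    refine (mk_le_mk_of_subset hcov).trans ?_
    refine (mk_iUnion_le _).trans ?_
    calc #S * ⨆ s : S, #(Set.Iic (s : P)) ≤ κ * κ := by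
          gcongr
          exact ciSup_le' fun s => h1 s
      _ = κ := mul_eq_self hκ
  exact absurd h2 (not_lt.2 h4)

/-- twisting the entries below the diagonal -/
def tw (h : ℕ ≃ ℕ) (d : P → P → Pt) : P → P → Pt := fun p q => if p ≤ q then d p q else hs h (d p q)

lemma tw_tw (h : ℕ ≃ ℕ) (d : P → P → Pt) : tw h.symm (tw h d) = d := by
  funext p q
  simp only [tw]
  split_ifs
  · rfl
  · exact hs_symm_hs h _

lemma tw_tw' (h : ℕ ≃ ℕ) (d : P → P → Pt) : tw h (tw h.symm d) = d := by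
  have := tw_tw h.symm d
  simpa using this

lemma tw_mono (h : ℕ ≃ ℕ) {d d' : P → P → Pt} (hd : d ≤ d') : tw h d ≤ tw h d' := by
  intro p q
  simp only [tw]
  split_ifs
  · exact hd p q
  · exact hs_mono h (hd p q)

lemma tw_mem (h1 : ∀ p : P, #(Set.Iic p) ≤ κ) (h2 : κ < #P) (h h' h'' : ℕ ≃ ℕ)
    (hcomp : ∀ x, hs h' (hs h x) = hs h'' x)
    {d : P → P → Pt} (hd : d ∈ Gam h κ hκ P) (hh'' : h'' = Equiv.refl ℕ) : tw h' d ∈ Gam h'' κ hκ P := by
  obtain ⟨hDY, hfin, S, hk, hs1, c, hc, hs2⟩ := hd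
  obtain ⟨α, hα⟩ := exists_bound hκ h1 h2 S hk
  refine ⟨?_, ?_, Set.Iic α, h1 α, ?_, c, hc, ?_⟩
  · intro p q
    simp only [tw]
    split_ifs
    · exact hDY p q
    · exact DY_hs h' (hDY p q)
  · refine ((hfin.union (hfin.image (hs h')))).subset ?_
    rintro _ ⟨pq, rfl⟩
    simp only [tw]
    split_ifs
    · exact Or.inl ⟨pq, rfl⟩
    · exact Or.inr ⟨_, ⟨pq, rfl⟩, rfl⟩
  · intro p
    by_cases hp : p ≤ α
    · obtain ⟨x, hx⟩ := hs1 p
      refine ⟨x, fun q hq => ?_⟩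
      have hqS : q ∉ S := fun h => hq (hα h)
      have hpq : p < q := lt_of_le_of_lt hp (not_le.1 hq)
      simp only [tw, hpq.le, if_true, not_le.2 hpq, if_false]
      rw [(hx q hqS).1, (hx q hqS).2, hcomp]
      exact ⟨rfl, rfl⟩
    · refine ⟨c, fun q hq => ?_⟩
      have hqS : q ∉ S := fun h => hq (hα h)
      have hpS : p ∉ S := fun h => hp (hα h)
      simp only [tw]
      rw [hs2 p hpS q hqS, hs2 q hqS p hpS, hs_const h' hc, hs_const h'' hc]
      constructor <;> split_ifs <;> rfl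
  · intro p hp q hq
    have hqS : q ∉ S := fun h => hq (hα h)
    have hpS : p ∉ S := fun h => hp (hα h)
    simp only [tw]
    rw [hs2 p hpS q hqS, hs_const h' hc]
    split_ifs <;> rfl

lemma tw_mem' (h1 : ∀ p : P, #(Set.Iic p) ≤ κ) (h2 : κ < #P) (h : ℕ ≃ ℕ)
    {d : P → P → Pt} (hd : d ∈ Gam (Equiv.refl ℕ) κ hκ P) : tw h d ∈ Gam h κ hκ P := by
  obtain ⟨hDY, hfin, S, hk, hs1, c, hc, hs2⟩ := hd
  obtain ⟨α, hα⟩ := exists_bound hκ h1 h2 S hk
  refine ⟨?_, ?_, Set.Iic α, h1 α, ?_, c, hc, ?_⟩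
  · intro p q
    simp only [tw]
    split_ifs
    · exact hDY p q
    · exact DY_hs h (hDY p q)
  · refine ((hfin.union (hfin.image (hs h)))).subset ?_
    rintro _ ⟨pq, rfl⟩
    simp only [tw]
    split_ifs
    · exact Or.inl ⟨pq, rfl⟩
    · exact Or.inr ⟨_, ⟨pq, rfl⟩, rfl⟩
  · intro p
    by_cases hp : p ≤ α
    · obtain ⟨x, hx⟩ := hs1 p
      refine ⟨x, fun q hq => ?_⟩
      have hqS : q ∉ S := fun h => hq (hα h)
      have hpq : p < q := lt_of_le_of_lt hp (not_le.1 hq)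
      simp only [tw, hpq.le, if_true, not_le.2 hpq, if_false]
      rw [(hx q hqS).1, (hx q hqS).2]
      exact ⟨rfl, rfl⟩
    · refine ⟨c, fun q hq => ?_⟩
      have hqS : q ∉ S := fun h => hq (hα h)
      have hpS : p ∉ S := fun h => hp (hα h)
      simp only [tw]
      rw [hs2 p hpS q hqS, hs2 q hqS p hpS, hs_const h hc]
      constructor <;> split_ifs <;> rfl
  · intro p hp q hq
    have hqS : q ∉ S := fun h => hq (hα h)
    have hpS : p ∉ S := fun h => hp (hα h)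
    simp only [tw]
    rw [hs2 p hpS q hqS, hs_const h hc]
    split_ifs <;> rfl

/-- over an ordinal-like index set of size just above `κ` the twisted lattice is untwisted -/
theorem inCu_twisted (h1 : ∀ p : P, #(Set.Iic p) ≤ κ) (h2 : κ < #P) (h : ℕ ≃ ℕ) :
    InCu (Gam h κ hκ P) := by
  apply (inCu_untwisted κ hκ P).of_iso
  refine
    { toFun := fun d => ⟨tw h.symm d, tw_mem hκ h1 h2 h h.symm (Equiv.refl ℕ) (fun x => hs_symm_hs h x) d.2 rfl⟩
      invFun := fun d => ⟨tw h d, tw_mem' hκ h1 h2 h d.2⟩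
      left_inv := ?_
      right_inv := ?_
      map_rel_iff' := ?_ }
  · intro d
    apply Subtype.ext
    exact tw_tw' h d.1
  · intro d
    apply Subtype.ext
    exact tw_tw h d.1
  · intro d d'
    constructor
    · intro hle
      have := tw_mono h hle
      simp only [Equiv.coe_fn_mk] at this
      have h3 : tw h (tw h.symm d.1) ≤ tw h (tw h.symm d'.1) := this
      rw [tw_tw', tw_tw'] at h3
      exact h3
    · intro hle
      exact tw_mono h.symm hle

end

end Pool.Agent.H47.LInf
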