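import Pool.Agent.H47.LInf.Defs

set_option autoImplicit false

namespace Pool.Agent.H47.LInf

open Cardinal

universe u

/-- a bound for the sizes of the quantifier blocks -/
noncomputable def Fml.bd : {V : Type u} → Fml V → Cardinal.{u}
  | _, .eq _ _ => 0
  | _, .not φ => φ.bd
  | _, .conj _ φ => ⨆ i, (φ i).bd
  | _, .disj _ φ => ⨆ i, (φ i).bd
  | _, .all W φ => max #W φ.bd
  | _, .ex W φ => max #W φ.bd

variable {L₁ L₂ : Type u} [Lattice L₁] [Lattice L₂]

lemma term_rel {R : L₁ → L₂ → Prop}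
    (hsup : ∀ a b a' b', R a b → R a' b' → R (a ⊔ a') (b ⊔ b'))
    (hinf : ∀ a b a' b', R a b → R a' b' → R (a ⊓ a') (b ⊓ b'))
    {V : Type u} (t : Term V) (v : V → L₁) (v' : V → L₂) (h : ∀ x, R (v x) (v' x)) :
    R (t.eval v) (t.eval v') := by
  induction t with
  | var x => exact h x
  | sup s t hs ht => exact hsup _ _ _ _ hs ht
  | inf s t hs ht => exact hinf _ _ _ _ hs ht

theorem backforth (κ : Cardinal.{u}) (𝓡 : Set (L₁ → L₂ → Prop))
    (heq : ∀ R ∈ 𝓡, ∀ a b a' b', R a b → R a' b' → (a = a' ↔ b = b'))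
    (hsup : ∀ R ∈ 𝓡, ∀ a b a' b', R a b → R a' b' → R (a ⊔ a') (b ⊔ b'))
    (hinf : ∀ R ∈ 𝓡, ∀ a b a' b', R a b → R a' b' → R (a ⊓ a') (b ⊓ b'))
    (forth : ∀ R ∈ 𝓡, ∀ W : Type u, #W ≤ κ → ∀ w : W → L₁, ∃ R' ∈ 𝓡, (∀ a b, R a b → R' a b) ∧
      ∃ w' : W → L₂, ∀ i, R' (w i) (w' i))
    (back : ∀ R ∈ 𝓡, ∀ W : Type u, #W ≤ κ → ∀ w' : W → L₂, ∃ R' ∈ 𝓡, (∀ a b, R a b → R' a b) ∧
      ∃ w : W → L₁, ∀ i, R' (w i) (w' i)) :
    ∀ {V : Type u} (φ : Fml V), φ.bd ≤ κ → ∀ R ∈ 𝓡, ∀ (v : V → L₁) (v' : V → L₂),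
      (∀ x, R (v x) (v' x)) → (φ.Sat L₁ v ↔ φ.Sat L₂ v') := by
  intro V φ
  induction φ with
  | eq s t =>
    intro _ R hR v v' h
    exact heq R hR _ _ _ _ (term_rel (hsup R hR) (hinf R hR) s v v' h)
      (term_rel (hsup R hR) (hinf R hR) t v v' h)
  | not φ ih =>
    intro hb R hR v v' h
    exact not_congr (ih hb R hR v v' h)
  | conj ι φ ih =>
    intro hb R hR v v' h
    have hb' : ∀ i, (φ i).bd ≤ κ := fun i =>
      (le_ciSup (f := fun i => (φ i).bd) (Cardinal.bddAbove_of_small) i).trans hb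
    exact forall_congr' fun i => ih i (hb' i) R hR v v' h
  | disj ι φ ih =>
    intro hb R hR v v' h
    have hb' : ∀ i, (φ i).bd ≤ κ := fun i =>
      (le_ciSup (f := fun i => (φ i).bd) (Cardinal.bddAbove_of_small) i).trans hb
    exact exists_congr fun i => ih i (hb' i) R hR v v' h
  | all W φ ih =>
    intro hb R hR v v' h
    have hW : #W ≤ κ := (le_max_left _ _).trans hb
    have hφ : φ.bd ≤ κ := (le_max_right _ _).trans hb
    constructor
    · intro hs w'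
      obtain ⟨R', hR', hRR', w, hw⟩ := back R hR W hW w'
      refine (ih hφ R' hR' (Sum.elim v w) (Sum.elim v' w') ?_).1 (hs w)
      rintro (x | x)
      · exact hRR' _ _ (h x)
      · exact hw x
    · intro hs w
      obtain ⟨R', hR', hRR', w', hw⟩ := forth R hR W hW w
      refine (ih hφ R' hR' (Sum.elim v w) (Sum.elim v' w') ?_).2 (hs w')
      rintro (x | x)
      · exact hRR' _ _ (h x)
      · exact hw x
  | ex W φ ih =>
    intro hb R hR v v' h
    have hW : #W ≤ κ := (le_max_left _ _).trans hb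
    have hφ : φ.bd ≤ κ := (le_max_right _ _).trans hb
    constructor
    · rintro ⟨w, hs⟩
      obtain ⟨R', hR', hRR', w', hw⟩ := forth R hR W hW w
      refine ⟨w', (ih hφ R' hR' (Sum.elim v w) (Sum.elim v' w') ?_).1 hs⟩
      rintro (x | x)
      · exact hRR' _ _ (h x)
      · exact hw x
    · rintro ⟨w', hs⟩
      obtain ⟨R', hR', hRR', w, hw⟩ := back R hR W hW w'
      refine ⟨w, (ih hφ R' hR' (Sum.elim v w) (Sum.elim v' w') ?_).2 hs⟩
      rintro (x | x)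
      · exact hRR' _ _ (h x)
      · exact hw x

end Pool.Agent.H47.LInf
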