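import Pool.Agent.H47.LInf.Defs

set_option autoImplicit false

namespace Pool.Agent.H47.LInf

universe u

section
variable {G : Type u} [AddCommGroup G] [Lattice G] [IsOrderedAddMonoid G]

/-- the principal ideal -/
def prin (y : G) : AddSubgroup G where
  carrier := {x | ∃ n : ℕ, |x| ≤ n • |y|}
  zero_mem' := ⟨0, by simp⟩
  add_mem' := by
    rintro a b ⟨n, hn⟩ ⟨m, hm⟩
    refine ⟨n + m, ?_⟩
    rw [add_nsmul]
    exact (abs_add_le a b).trans (add_le_add hn hm)
  neg_mem' := by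
    rintro a ⟨n, hn⟩
    exact ⟨n, by rwa [abs_neg]⟩

lemma mem_prin {x y : G} : x ∈ prin y ↔ ∃ n : ℕ, |x| ≤ n • |y| := Iff.rfl

lemma abs_le_add_of_between {a b x : G} (h1 : a ≤ x) (h2 : x ≤ b) : |x| ≤ |a| + |b| := by
  rw [abs_le']
  constructor
  · calc x ≤ b := h2
      _ ≤ |b| := le_abs_self b
      _ ≤ |a| + |b| := le_add_of_nonneg_left (abs_nonneg a)
  · calc -x ≤ -a := neg_le_neg h1
      _ ≤ |a| := neg_le_abs a
      _ ≤ |a| + |b| := le_add_of_nonneg_right (abs_nonneg b)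

lemma prin_isLIdeal (y : G) : IsLIdeal (prin y) := by
  have key : ∀ a ∈ prin y, ∀ b ∈ prin y, ∀ x, a ≤ x → x ≤ b → x ∈ prin y := by
    rintro a ⟨n, hn⟩ b ⟨m, hm⟩ x h1 h2
    refine ⟨n + m, ?_⟩
    rw [add_nsmul]
    exact (abs_le_add_of_between h1 h2).trans (add_le_add hn hm)
  refine ⟨?_, key⟩
  rintro a ⟨n, hn⟩ b ⟨m, hm⟩
  have h1 : |a| + |b| ∈ prin y := by
    refine ⟨n + m, ?_⟩
    rw [abs_of_nonneg (add_nonneg (abs_nonneg a) (abs_nonneg b)), add_nsmul]
    exact add_le_add hn hm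
  have h2 : -(|a| + |b|) ∈ prin y := neg_mem h1
  have ha1 : a ≤ |a| + |b| := (le_abs_self a).trans (le_add_of_nonneg_right (abs_nonneg b))
  have hb1 : b ≤ |a| + |b| := (le_abs_self b).trans (le_add_of_nonneg_left (abs_nonneg a))
  have ha2 : -(|a| + |b|) ≤ a := by
    rw [neg_le]
    exact (neg_le_abs a).trans (le_add_of_nonneg_right (abs_nonneg b))
  have hb2 : -(|a| + |b|) ≤ b := by
    rw [neg_le]
    exact (neg_le_abs b).trans (le_add_of_nonneg_left (abs_nonneg a))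
  exact ⟨key _ h2 _ h1 _ (ha2.trans le_sup_left) (sup_le ha1 hb1),
    key _ h2 _ h1 _ (le_inf ha2 hb2) (inf_le_left.trans ha1)⟩

omit [IsOrderedAddMonoid G] in
lemma abs_mem_of_isLIdeal {I : AddSubgroup G} (hI : IsLIdeal I) {a : G} (ha : a ∈ I) : |a| ∈ I :=
  (hI.1 a ha (-a) (neg_mem ha)).1

lemma mem_of_abs_le {I : AddSubgroup G} (hI : IsLIdeal I) {a b : G} (hb : b ∈ I) (h : |a| ≤ |b|) : a ∈ I := by
  have h1 := abs_mem_of_isLIdeal hI hb
  refine hI.2 (-|b|) (neg_mem h1) |b| h1 a ?_ ?_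
  · rw [neg_le]; exact (neg_le_abs a).trans h
  · exact (le_abs_self a).trans h

lemma prin_le {I : AddSubgroup G} (hI : IsLIdeal I) {y : G} (hy : y ∈ I) : prin y ≤ I := by
  rintro x ⟨n, hn⟩
  have h1 : n • |y| ∈ I := nsmul_mem (abs_mem_of_isLIdeal hI hy) n
  apply mem_of_abs_le hI h1
  rwa [abs_of_nonneg (nsmul_nonneg (abs_nonneg y) n)]

lemma self_mem_prin (y : G) : y ∈ prin y := ⟨1, by simp⟩

lemma prin_mem_of {x y : G} (h : |x| ≤ |y|) : x ∈ prin y := ⟨1, by simpa using h⟩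

/-- the principal ideal as an element of `Idc G` -/
def prinIdc (y : G) : Idc G :=
  ⟨prin y, prin_isLIdeal y, {y}, by simpa using self_mem_prin y, fun J hJ hs => prin_le hJ (by simpa using hs)⟩

/-- every finitely generated ideal is principal -/
lemma exists_prinIdc (I : Idc G) : ∃ y, I = prinIdc y := by
  classical
  obtain ⟨I, hI, s, hs, hmin⟩ := I
  refine ⟨∑ a ∈ s, |a|, ?_⟩
  apply Subtype.ext
  apply le_antisymm
  · apply hmin _ (prin_isLIdeal _)
    intro a ha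
    apply prin_mem_of
    have h0 : 0 ≤ ∑ a ∈ s, |a| := Finset.sum_nonneg (fun a _ => abs_nonneg a)
    rw [abs_of_nonneg h0]
    exact Finset.single_le_sum (f := fun a => |a|) (fun a _ => abs_nonneg a) (by simpa using ha)
  · apply prin_le hI
    exact sum_mem fun a ha => abs_mem_of_isLIdeal hI (hs (by simpa using ha))

lemma prinIdc_le_iff {x y : G} : prinIdc x ≤ prinIdc y ↔ ∃ n : ℕ, |x| ≤ n • |y| := by
  constructor
  · intro h
    exact h (self_mem_prin x)
  · intro h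
    exact prin_le (prin_isLIdeal y) h

/-- criterion -/
theorem iso_of_sigma {L : Type u} [Lattice L] (σ : G → L) (hs : Function.Surjective σ)
    (h : ∀ x y, σ x ≤ σ y ↔ ∃ n : ℕ, |x| ≤ n • |y|) : Nonempty (L ≃o Idc G) := by
  choose ψ hψ using hs
  let f : L → Idc G := fun l => prinIdc (ψ l)
  have hf : ∀ a b, f a ≤ f b ↔ a ≤ b := by
    intro a b
    simp only [f]
    rw [prinIdc_le_iff, ← h, hψ, hψ]
  have hsurj : Function.Surjective f := by
    intro I
    obtain ⟨y, rfl⟩ := exists_prinIdc I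
    refine ⟨σ y, ?_⟩
    apply le_antisymm
    · simp only [f]
      rw [prinIdc_le_iff, ← h, hψ]
    · simp only [f]
      rw [prinIdc_le_iff, ← h, hψ]
  let g : L ↪o Idc G := OrderEmbedding.ofMapLEIff f hf
  exact ⟨RelIso.ofSurjective g hsurj⟩

theorem sigma_of_iso {L : Type u} [Lattice L] (e : L ≃o Idc G) :
    ∃ σ : G → L, Function.Surjective σ ∧ ∀ x y, σ x ≤ σ y ↔ ∃ n : ℕ, |x| ≤ n • |y| := by
  refine ⟨fun x => e.symm (prinIdc x), ?_, ?_⟩
  · intro l
    obtain ⟨y, hy⟩ := exists_prinIdc (e l)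
    exact ⟨y, by simp [← hy]⟩
  · intro x y
    rw [OrderIso.le_iff_le, prinIdc_le_iff]

end

end Pool.Agent.H47.LInf
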