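import Mathlib

set_option autoImplicit false

namespace Pool.Agent.H47.LInf

universe u

/-- Terms in the language `(∨, ∧)` of lattices, with variables indexed by `V`. -/
inductive Term (V : Type u) : Type u
  | var (x : V) : Term V
  | sup (s t : Term V) : Term V
  | inf (s t : Term V) : Term V

/-- The value of a term in a lattice under an assignment of the variables. -/
def Term.eval {V L : Type u} [Lattice L] (v : V → L) : Term V → L
  | .var x => v x
  | .sup s t => s.eval v ⊔ t.eval v
  | .inf s t => s.eval v ⊓ t.eval v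

/-- Formulas of the infinitary logic `L_{∞∞}` in the language `(∨, ∧)` of lattices, with free
variables indexed by `V`: conjunctions and disjunctions over arbitrary index sets, and quantification
over arbitrary sets `W` of new variables. -/
inductive Fml : Type u → Type (u + 1)
  | eq {V : Type u} (s t : Term V) : Fml V
  | not {V : Type u} (φ : Fml V) : Fml V
  | conj {V : Type u} (ι : Type u) (φ : ι → Fml V) : Fml V
  | disj {V : Type u} (ι : Type u) (φ : ι → Fml V) : Fml V
  | all {V : Type u} (W : Type u) (φ : Fml (V ⊕ W)) : Fml V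
  | ex {V : Type u} (W : Type u) (φ : Fml (V ⊕ W)) : Fml V

/-- Satisfaction of a formula in a lattice `L` under the assignment `v`. -/
def Fml.Sat (L : Type u) [Lattice L] : {V : Type u} → Fml V → (V → L) → Prop
  | _, .eq s t, v => s.eval v = t.eval v
  | _, .not φ, v => ¬ φ.Sat L v
  | _, .conj _ φ, v => ∀ i, (φ i).Sat L v
  | _, .disj _ φ, v => ∃ i, (φ i).Sat L v
  | _, .all W φ, v => ∀ w : W → L, φ.Sat L (Sum.elim v w)
  | _, .ex W φ, v => ∃ w : W → L, φ.Sat L (Sum.elim v w)

/-- A sentence: a formula without free variables. -/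
abbrev Sentence := Fml.{u} PEmpty.{u + 1}

/-- `L` is a model of the sentence `φ`. -/
def Models (L : Type u) [Lattice L] (φ : Sentence.{u}) : Prop := φ.Sat L PEmpty.elim

section

variable (G : Type u) [AddCommGroup G] [Lattice G]

/-- `I` is an `ℓ`-ideal, i.e. a convex `ℓ`-subgroup. -/
def IsLIdeal {G : Type u} [AddCommGroup G] [Lattice G] (I : AddSubgroup G) : Prop :=
  (∀ a ∈ I, ∀ b ∈ I, a ⊔ b ∈ I ∧ a ⊓ b ∈ I) ∧ ∀ a ∈ I, ∀ b ∈ I, ∀ x, a ≤ x → x ≤ b → x ∈ I

/-- `Id_c G`: the finitely generated `ℓ`-ideals of `G`, ordered by inclusion. -/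
def Idc : Type u :=
  {I : AddSubgroup G // IsLIdeal I ∧ ∃ s : Finset G, (s : Set G) ⊆ I ∧
    ∀ J : AddSubgroup G, IsLIdeal J → (s : Set G) ⊆ J → I ≤ J}

instance : PartialOrder (Idc G) := Subtype.partialOrder _

/-- `G` is Archimedean: `n x ≤ y` for all `n ≥ 1` implies `x ≤ 0`. -/
def IsArch : Prop := ∀ x y : G, (∀ n : ℕ, 1 ≤ n → n • x ≤ y) → x ≤ 0

/-- `G` has an order-unit. -/
def HasOrderUnit : Prop := ∃ e : G, 0 ≤ e ∧ ∀ x : G, ∃ n : ℕ, 0 < n ∧ x ≤ n • e

end

/-- The class `𝒞_u`: lattices isomorphic to `Id_c G` for an Archimedean `ℓ`-group `G` with an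
order-unit. -/
def InCu (L : Type u) [Lattice L] : Prop :=
  ∃ (G : Type u) (_ : AddCommGroup G) (_ : Lattice G) (_ : IsOrderedAddMonoid G),
    IsArch G ∧ HasOrderUnit G ∧ Nonempty (L ≃o Idc G)

end Pool.Agent.H47.LInf
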