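import Pool.Agent.H47.LInf.Gam
import Pool.Agent.H47.LInf.BackForth

set_option autoImplicit false

namespace Pool.Agent.H47.LInf

open Cardinal

universe u

variable {P P' : Type u} {κ : Cardinal.{u}} {hκ : ℵ₀ ≤ κ} {h : ℕ ≃ ℕ}

/-- `E` is the graph of a small partial bijection -/
def PB (κ : Cardinal.{u}) (E : Set (P × P')) : Prop :=
  (∀ p p' p'', (p, p') ∈ E → (p, p'') ∈ E → p' = p'') ∧ (∀ p q p', (p, p') ∈ E → (q, p') ∈ E → p = q) ∧
    #E ≤ κ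

/-- domain and range -/
def dom (E : Set (P × P')) : Set P := {p | ∃ p', (p, p') ∈ E}
def ran (E : Set (P × P')) : Set P' := {p' | ∃ p, (p, p') ∈ E}

/-- the relation between `Γ(P)` and `Γ(P')` attached to `E` -/
def Rel (E : Set (P × P')) (d : Gam h κ hκ P) (d' : Gam h κ hκ P') : Prop :=
  (∀ p p' q q', (p, p') ∈ E → (q, q') ∈ E → d'.1 p' q' = d.1 p q) ∧
  (∀ p p', (p, p') ∈ E → ∃ x, (∀ q, q ∉ dom E → d.1 p q = x ∧ d.1 q p = hs h x) ∧
    (∀ q', q' ∉ ran E → d'.1 p' q' = x ∧ d'.1 q' p' = hs h x)) ∧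
  (∃ c : Pt, (c = ⊥ ∨ c = ⊤) ∧ (∀ p ∉ dom E, ∀ q ∉ dom E, d.1 p q = c) ∧
    (∀ p' ∉ ran E, ∀ q' ∉ ran E, d'.1 p' q' = c))

lemma dom_card {E : Set (P × P')} (hE : PB κ E) : #(dom E) ≤ κ := by
  refine le_trans ?_ hE.2.2
  have : dom E = Prod.fst '' E := by
    ext p
    simp [dom]
  rw [this]
  exact mk_image_le

lemma ran_card {E : Set (P × P')} (hE : PB κ E) : #(ran E) ≤ κ := by
  refine le_trans ?_ hE.2.2
  have : ran E = Prod.snd '' E := by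
    ext p
    simp [ran]
  rw [this]
  exact mk_image_le

lemma exists_notMem {S : Set P} (hS : #S ≤ κ) (hP : κ < #P) : ∃ p, p ∉ S := by
  by_contra hcon
  push Not at hcon
  have : S = Set.univ := Set.eq_univ_of_forall hcon
  rw [this, mk_univ] at hS
  exact absurd hP (not_lt.2 hS)

/-- the inverse partial bijection -/
def inv (E : Set (P × P')) : Set (P' × P) := {x | (x.2, x.1) ∈ E}

lemma PB.inv {E : Set (P × P')} (hE : PB κ E) : PB κ (inv E) := by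
  refine ⟨fun p p' p'' h1 h2 => hE.2.1 _ _ _ h1 h2, fun p q p' h1 h2 => hE.1 _ _ _ h1 h2, ?_⟩
  refine le_trans ?_ hE.2.2
  have : LInf.inv E = Prod.swap '' E := by
    ext ⟨a, b⟩
    simp [LInf.inv]
  rw [this]
  exact mk_image_le

lemma Rel.symm {E : Set (P × P')} {d : Gam h κ hκ P} {d' : Gam h κ hκ P'} (hR : Rel E d d') :
    Rel (inv E) d' d := by
  obtain ⟨h1, h2, c, hc, h3, h4⟩ := hR
  refine ⟨fun p p' q q' hp hq => (h1 _ _ _ _ hp hq).symm, fun p p' hp => ?_, c, hc, h4, h3⟩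
  obtain ⟨x, hx1, hx2⟩ := h2 _ _ hp
  exact ⟨x, hx2, hx1⟩

lemma Rel.eq_imp (hP : κ < #P) {E : Set (P × P')} (hE : PB κ E)
    {a : Gam h κ hκ P} {b : Gam h κ hκ P'} {a' : Gam h κ hκ P} {b' : Gam h κ hκ P'}
    (hR : Rel E a b) (hR' : Rel E a' b') (heq : a = a') : b = b' := by
  subst heq
  obtain ⟨q0, hq0⟩ := exists_notMem (dom_card hE) hP
  obtain ⟨h1, h2, c, hc, h3, h4⟩ := hR
  obtain ⟨h1', h2', c', hc', h3', h4'⟩ := hR'
  apply Subtype.ext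
  funext p' q'
  by_cases hp : p' ∈ ran E
  · obtain ⟨p, hp⟩ := hp
    by_cases hq : q' ∈ ran E
    · obtain ⟨q, hq⟩ := hq
      rw [h1 _ _ _ _ hp hq, h1' _ _ _ _ hp hq]
    · obtain ⟨x, hx1, hx2⟩ := h2 _ _ hp
      obtain ⟨x', hx1', hx2'⟩ := h2' _ _ hp
      rw [(hx2 q' hq).1, (hx2' q' hq).1, ← (hx1 q0 hq0).1, ← (hx1' q0 hq0).1]
  · by_cases hq : q' ∈ ran E
    · obtain ⟨q, hq⟩ := hq
      obtain ⟨x, hx1, hx2⟩ := h2 _ _ hq
      obtain ⟨x', hx1', hx2'⟩ := h2' _ _ hq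
      rw [(hx2 p' hp).2, (hx2' p' hp).2, ← (hx1 q0 hq0).2, ← (hx1' q0 hq0).2]
    · rw [h4 _ hp _ hq, h4' _ hp _ hq, ← h3 q0 hq0 q0 hq0, ← h3' q0 hq0 q0 hq0]

lemma inv_inv' (E : Set (P × P')) : inv (inv E) = E := rfl

lemma Rel.eq_iff (hP : κ < #P) (hP' : κ < #P') {E : Set (P × P')} (hE : PB κ E)
    {a : Gam h κ hκ P} {b : Gam h κ hκ P'} {a' : Gam h κ hκ P} {b' : Gam h κ hκ P'}
    (hR : Rel E a b) (hR' : Rel E a' b') : a = a' ↔ b = b' :=
  ⟨fun h => hR.eq_imp hP hE hR' h, fun h => (hR.symm).eq_imp hP' hE.inv hR'.symm h⟩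

lemma Rel.sup {E : Set (P × P')}
    {a : Gam h κ hκ P} {b : Gam h κ hκ P'} {a' : Gam h κ hκ P} {b' : Gam h κ hκ P'}
    (hR : Rel E a b) (hR' : Rel E a' b') : Rel E (a ⊔ a') (b ⊔ b') := by
  obtain ⟨h1, h2, c, hc, h3, h4⟩ := hR
  obtain ⟨h1', h2', c', hc', h3', h4'⟩ := hR'
  have e1 : ∀ p q, (a ⊔ a').1 p q = a.1 p q ⊔ a'.1 p q := fun p q => rfl
  have e2 : ∀ p q, (b ⊔ b').1 p q = b.1 p q ⊔ b'.1 p q := fun p q => rfl
  refine ⟨fun p p' q q' hp hq => ?_, fun p p' hp => ?_, c ⊔ c', const_sup hc hc',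
    fun p hp q hq => ?_, fun p hp q hq => ?_⟩
  · rw [e1, e2, h1 _ _ _ _ hp hq, h1' _ _ _ _ hp hq]
  · obtain ⟨x, hx1, hx2⟩ := h2 _ _ hp
    obtain ⟨x', hx1', hx2'⟩ := h2' _ _ hp
    refine ⟨x ⊔ x', fun q hq => ?_, fun q hq => ?_⟩
    · rw [e1, e1, hs_sup, (hx1 q hq).1, (hx1 q hq).2, (hx1' q hq).1, (hx1' q hq).2]
      exact ⟨rfl, rfl⟩
    · rw [e2, e2, hs_sup, (hx2 q hq).1, (hx2 q hq).2, (hx2' q hq).1, (hx2' q hq).2]
      exact ⟨rfl, rfl⟩
  · rw [e1, h3 _ hp _ hq, h3' _ hp _ hq]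
  · rw [e2, h4 _ hp _ hq, h4' _ hp _ hq]

lemma Rel.inf {E : Set (P × P')}
    {a : Gam h κ hκ P} {b : Gam h κ hκ P'} {a' : Gam h κ hκ P} {b' : Gam h κ hκ P'}
    (hR : Rel E a b) (hR' : Rel E a' b') : Rel E (a ⊓ a') (b ⊓ b') := by
  obtain ⟨h1, h2, c, hc, h3, h4⟩ := hR
  obtain ⟨h1', h2', c', hc', h3', h4'⟩ := hR'
  have e1 : ∀ p q, (a ⊓ a').1 p q = a.1 p q ⊓ a'.1 p q := fun p q => rfl
  have e2 : ∀ p q, (b ⊓ b').1 p q = b.1 p q ⊓ b'.1 p q := fun p q => rfl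
  refine ⟨fun p p' q q' hp hq => ?_, fun p p' hp => ?_, c ⊓ c', const_inf hc hc',
    fun p hp q hq => ?_, fun p hp q hq => ?_⟩
  · rw [e1, e2, h1 _ _ _ _ hp hq, h1' _ _ _ _ hp hq]
  · obtain ⟨x, hx1, hx2⟩ := h2 _ _ hp
    obtain ⟨x', hx1', hx2'⟩ := h2' _ _ hp
    refine ⟨x ⊓ x', fun q hq => ?_, fun q hq => ?_⟩
    · rw [e1, e1, hs_inf, (hx1 q hq).1, (hx1 q hq).2, (hx1' q hq).1, (hx1' q hq).2]
      exact ⟨rfl, rfl⟩
    · rw [e2, e2, hs_inf, (hx2 q hq).1, (hx2 q hq).2, (hx2' q hq).1, (hx2' q hq).2]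
      exact ⟨rfl, rfl⟩
  · rw [e1, h3 _ hp _ hq, h3' _ hp _ hq]
  · rw [e2, h4 _ hp _ hq, h4' _ hp _ hq]

/-- existence of an extension of a small partial bijection to a small set -/
lemma exists_extension (hκ : ℵ₀ ≤ κ) (hP' : κ < #P') {E : Set (P × P')} (hE : PB κ E) (T : Set P)
    (hT : #T ≤ κ) : ∃ E' : Set (P × P'), PB κ E' ∧ E ⊆ E' ∧ dom E' = dom E ∪ T ∧
      (∀ p p', (p, p') ∈ E' → (p, p') ∉ E → p ∉ dom E ∧ p' ∉ ran E) := by
  have h1 : κ < #((ran E)ᶜ : Set P') := by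
    by_contra hcon
    push Not at hcon
    have h2 : #P' = #(ran E) + #((ran E)ᶜ : Set P') := (mk_sum_compl (ran E)).symm
    have h3 : #P' ≤ κ + κ := by rw [h2]; exact add_le_add (ran_card hE) hcon
    rw [add_eq_self hκ] at h3
    exact absurd hP' (not_lt.2 h3)
  have h2 : #((T \ dom E : Set P)) ≤ #((ran E)ᶜ : Set P') :=
    ((mk_le_mk_of_subset Set.sdiff_subset).trans hT).trans h1.le
  obtain ⟨j⟩ := Cardinal.le_def _ _ |>.1 h2
  refine ⟨E ∪ Set.range (fun t : (T \ dom E : Set P) => ((t : P), ((j t : ((ran E)ᶜ : Set P')) : P'))), ⟨?_, ?_, ?_⟩,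
    Set.subset_union_left, ?_, ?_⟩
  · rintro p p' p'' (ha | ⟨t, ht⟩) (hb | ⟨s, hs⟩)
    · exact hE.1 _ _ _ ha hb
    · exfalso
      have : (s : P) = p := congrArg Prod.fst hs
      apply s.2.2
      rw [this]
      exact ⟨p', ha⟩
    · exfalso
      have : (t : P) = p := congrArg Prod.fst ht
      apply t.2.2
      rw [this]
      exact ⟨p'', hb⟩
    · have e1 : (t : P) = p := congrArg Prod.fst ht
      have e2 : (s : P) = p := congrArg Prod.fst hs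
      have e3 : t = s := Subtype.ext (e1.trans e2.symm)
      subst e3
      have e4 : ((j t : ((ran E)ᶜ : Set P')) : P') = p' := congrArg Prod.snd ht
      have e5 : ((j t : ((ran E)ᶜ : Set P')) : P') = p'' := congrArg Prod.snd hs
      exact e4.symm.trans e5
  · rintro p q p' (ha | ⟨t, ht⟩) (hb | ⟨s, hs⟩)
    · exact hE.2.1 _ _ _ ha hb
    · exfalso
      have : ((j s : ((ran E)ᶜ : Set P')) : P') = p' := congrArg Prod.snd hs
      apply (j s).2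
      rw [this]
      exact ⟨p, ha⟩
    · exfalso
      have : ((j t : ((ran E)ᶜ : Set P')) : P') = p' := congrArg Prod.snd ht
      apply (j t).2
      rw [this]
      exact ⟨q, hb⟩
    · have e1 : ((j t : ((ran E)ᶜ : Set P')) : P') = p' := congrArg Prod.snd ht
      have e2 : ((j s : ((ran E)ᶜ : Set P')) : P') = p' := congrArg Prod.snd hs
      have e3 : j t = j s := Subtype.ext (e1.trans e2.symm)
      have e4 := j.injective e3
      subst e4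
      have e5 : (t : P) = p := congrArg Prod.fst ht
      have e6 : (t : P) = q := congrArg Prod.fst hs
      exact e5.symm.trans e6
  · apply mk_union_le_of hκ hE.2.2
    exact mk_range_le.trans ((mk_le_mk_of_subset Set.sdiff_subset).trans hT)
  · ext p
    constructor
    · rintro ⟨p', (ha | ⟨t, ht⟩)⟩
      · exact Or.inl ⟨p', ha⟩
      · have : (t : P) = p := congrArg Prod.fst ht
        right
        rw [← this]
        exact t.2.1
    · rintro (⟨p', ha⟩ | hT')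
      · exact ⟨p', Or.inl ha⟩
      · by_cases hp : p ∈ dom E
        · obtain ⟨p', ha⟩ := hp
          exact ⟨p', Or.inl ha⟩
        · exact ⟨_, Or.inr ⟨⟨p, hT', hp⟩, rfl⟩⟩
  · rintro p p' (ha | ⟨t, ht⟩) hne
    · exact absurd ha hne
    · have e1 : (t : P) = p := congrArg Prod.fst ht
      have e2 : ((j t : ((ran E)ᶜ : Set P')) : P') = p' := congrArg Prod.snd ht
      refine ⟨?_, ?_⟩
      · rw [← e1]; exact t.2.2
      · rw [← e2]; exact (j t).2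

lemma Rel.extend {E E' : Set (P × P')} (hEE' : E ⊆ E')
    (hnew : ∀ p p', (p, p') ∈ E' → (p, p') ∉ E → p ∉ dom E ∧ p' ∉ ran E)
    {d : Gam h κ hκ P} {d' : Gam h κ hκ P'} (hR : Rel E d d') : Rel E' d d' := by
  obtain ⟨h1, h2, c, hc, h3, h4⟩ := hR
  have hdom : dom E ⊆ dom E' := fun p ⟨p', hp⟩ => ⟨p', hEE' hp⟩
  have hran : ran E ⊆ ran E' := fun p ⟨p', hp⟩ => ⟨p', hEE' hp⟩
  refine ⟨fun p p' q q' hp hq => ?_, fun p p' hp => ?_, c, hc,
    fun p hp q hq => h3 p (fun h => hp (hdom h)) q (fun h => hq (hdom h)),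
    fun p hp q hq => h4 p (fun h => hp (hran h)) q (fun h => hq (hran h))⟩
  · by_cases hpE : (p, p') ∈ E
    · by_cases hqE : (q, q') ∈ E
      · exact h1 _ _ _ _ hpE hqE
      · obtain ⟨hq1, hq2⟩ := hnew q q' hq hqE
        obtain ⟨x, hx1, hx2⟩ := h2 _ _ hpE
        rw [(hx1 q hq1).1, (hx2 q' hq2).1]
    · obtain ⟨hp1, hp2⟩ := hnew p p' hp hpE
      by_cases hqE : (q, q') ∈ E
      · obtain ⟨x, hx1, hx2⟩ := h2 _ _ hqE
        rw [(hx1 p hp1).2, (hx2 p' hp2).2]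
      · obtain ⟨hq1, hq2⟩ := hnew q q' hq hqE
        rw [h3 p hp1 q hq1, h4 p' hp2 q' hq2]
  · by_cases hpE : (p, p') ∈ E
    · obtain ⟨x, hx1, hx2⟩ := h2 _ _ hpE
      exact ⟨x, fun q hq => hx1 q (fun h => hq (hdom h)), fun q hq => hx2 q (fun h => hq (hran h))⟩
    · obtain ⟨hp1, hp2⟩ := hnew p p' hp hpE
      refine ⟨c, fun q hq => ?_, fun q hq => ?_⟩
      · have hq1 : q ∉ dom E := fun h => hq (hdom h)
        rw [h3 p hp1 q hq1, h3 q hq1 p hp1, hs_const h hc]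
        exact ⟨rfl, rfl⟩
      · have hq1 : q ∉ ran E := fun h => hq (hran h)
        rw [h4 p' hp2 q hq1, h4 q hq1 p' hp2, hs_const h hc]
        exact ⟨rfl, rfl⟩

theorem forth (hP : κ < #P) (hP' : κ < #P') {E : Set (P × P')} (hE : PB κ E) (W : Type u)
    (hW : #W ≤ κ) (w : W → Gam h κ hκ P) :
    ∃ E' : Set (P × P'), PB κ E' ∧ (∀ (d : Gam h κ hκ P) (d' : Gam h κ hκ P'), Rel E d d' → Rel E' d d') ∧
      ∃ w' : W → Gam h κ hκ P', ∀ i, Rel E' (w i) (w' i) := by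
  classical
  choose S hS using fun i => (w i).2.2.2
  set T : Set P := ⋃ i, S i with hT
  have hTk : #T ≤ κ := by
    refine (mk_iUnion_le _).trans ?_
    calc #W * ⨆ i, #(S i) ≤ κ * κ := by
          gcongr
          exact ciSup_le' fun i => (hS i).1
      _ = κ := mul_eq_self hκ
  obtain ⟨E', hE', hEE', hdom, hnew⟩ := exists_extension hκ hP' hE T hTk
  obtain ⟨q0, hq0⟩ := exists_notMem (dom_card hE') hP
  have hST : ∀ i, S i ⊆ dom E' := fun i p hp => by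
    rw [hdom]; exact Or.inr (Set.mem_iUnion.2 ⟨i, hp⟩)
  -- the map π
  set π : P' → P := fun p' => if hh : ∃ p, (p, p') ∈ E' then hh.choose else q0 with hπ
  have hπ1 : ∀ p p', (p, p') ∈ E' → π p' = p := by
    intro p p' hp
    have hh : ∃ p, (p, p') ∈ E' := ⟨p, hp⟩
    simp only [hπ, hh, dif_pos]
    exact hE'.2.1 _ _ _ hh.choose_spec hp
  have hπ2 : ∀ p', p' ∉ ran E' → π p' = q0 := by
    intro p' hp'
    have hh : ¬ ∃ p, (p, p') ∈ E' := hp'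
    simp only [hπ, hh, dif_neg, not_false_eq_true]
  have hmem : ∀ i, (fun p' q' => (w i).1 (π p') (π q')) ∈ Gam h κ hκ P' := by
    intro i
    obtain ⟨-, hs1, c, hc, hs2⟩ := hS i
    have hq0S : q0 ∉ S i := fun h => hq0 (hST i h)
    refine ⟨fun p' q' => (w i).2.1 _ _, ?_, ran E', ran_card hE', ?_, c, hc, ?_⟩
    · refine (w i).2.2.1.subset ?_
      rintro _ ⟨pq, rfl⟩
      exact ⟨(π pq.1, π pq.2), rfl⟩
    · intro p'
      obtain ⟨x, hx⟩ := hs1 (π p')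
      refine ⟨x, fun q' hq' => ?_⟩
      simp only
      rw [hπ2 q' hq']
      exact hx q0 hq0S
    · intro p' hp' q' hq'
      simp only
      rw [hπ2 p' hp', hπ2 q' hq']
      exact hs2 q0 hq0S q0 hq0S
  refine ⟨E', hE', fun d d' hR => hR.extend hEE' hnew, fun i => ⟨_, hmem i⟩, fun i => ?_⟩
  obtain ⟨-, hs1, c, hc, hs2⟩ := hS i
  have hq0S : q0 ∉ S i := fun h => hq0 (hST i h)
  refine ⟨fun p p' q q' hp hq => ?_, fun p p' hp => ?_, c, hc, fun p hp q hq => ?_, fun p hp q hq => ?_⟩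
  · show (w i).1 (π p') (π q') = (w i).1 p q
    rw [hπ1 p p' hp, hπ1 q q' hq]
  · obtain ⟨x, hx⟩ := hs1 p
    refine ⟨x, fun q hq => hx q (fun h => hq (hST i h)), fun q' hq' => ?_⟩
    show (w i).1 (π p') (π q') = x ∧ (w i).1 (π q') (π p') = hs h x
    rw [hπ1 p p' hp, hπ2 q' hq']
    exact hx q0 hq0S
  · exact hs2 p (fun h => hp (hST i h)) q (fun h => hq (hST i h))
  · show (w i).1 (π p) (π q) = c
    rw [hπ2 p hp, hπ2 q hq]
    exact hs2 q0 hq0S q0 hq0S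

/-- `Γ(P)` and `Γ(P')` satisfy the same sentences with quantifier blocks of size at most `κ`. -/
theorem equiv_models (hP : κ < #P) (hP' : κ < #P') (φ : Sentence.{u}) (hφ : φ.bd ≤ κ) :
    Models (Gam h κ hκ P) φ ↔ Models (Gam h κ hκ P') φ := by
  refine backforth κ {R | ∃ E : Set (P × P'), PB κ E ∧ R = Rel E} ?_ ?_ ?_ ?_ ?_ φ hφ (Rel ∅)
    ⟨∅, ⟨fun _ _ _ h => absurd h (Set.notMem_empty _), fun _ _ _ h => absurd h (Set.notMem_empty _), by simp⟩,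
      rfl⟩ _ _ (fun x => x.elim)
  · rintro R ⟨E, hE, rfl⟩ a b a' b' hR hR'
    exact hR.eq_iff hP hP' hE hR'
  · rintro R ⟨E, hE, rfl⟩ a b a' b' hR hR'
    exact hR.sup hR'
  · rintro R ⟨E, hE, rfl⟩ a b a' b' hR hR'
    exact hR.inf hR'
  · rintro R ⟨E, hE, rfl⟩ W hW w
    obtain ⟨E', hE', h1, w', hw'⟩ := forth hP hP' hE W hW w
    exact ⟨Rel E', ⟨E', hE', rfl⟩, h1, w', hw'⟩
  · rintro R ⟨E, hE, rfl⟩ W hW w
    obtain ⟨E', hE', h1, w', hw'⟩ := forth (P := P') (P' := P) hP' hP hE.inv W hW w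
    refine ⟨Rel (inv E'), ⟨inv E', hE'.inv, rfl⟩, fun d d' hR => ?_, w', fun i => (hw' i).symm⟩
    exact (h1 d' d hR.symm).symm

end Pool.Agent.H47.LInf
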