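import Pool.Agent.H47.LInf.NonRep

set_option autoImplicit false
set_option linter.unusedSectionVars false

namespace Pool.Agent.H47.LInf

open Cardinal Order

universe u

section
variable {P : Type u} {κ : Cardinal.{u}}

/-- the pigeonhole argument: two indices of the same type, independent of each other -/
lemma pigeon (hκ : ℵ₀ ≤ κ) (hc : continuum.{u} ≤ κ) (hP : succ κ < #P) (S : P → Set P)
    (hS : ∀ p, #(S p) ≤ κ) (t : P → ℕ → ℕ → Set ℕ) :
    ∃ p q, q ∉ S p ∧ p ∉ S q ∧ t p = t q := by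
  have hκ1 : ℵ₀ ≤ succ κ := hκ.trans (le_succ κ)
  let f : P → ULift.{u} (ℕ → ℕ → Set ℕ) := fun p => ULift.up (t p)
  have hcard : #(ULift.{u} (ℕ → ℕ → Set ℕ)) < (succ (succ κ)).ord.cof := by
    rw [(isRegular_succ hκ1).cof_ord]
    have h1 : #(ULift.{u} (ℕ → ℕ → Set ℕ)) = continuum.{u} := by
      simp
    rw [h1]
    exact (hc.trans (le_succ κ)).trans_lt (lt_succ _)
  obtain ⟨a, ha⟩ := infinite_pigeonhole_card f (succ (succ κ)) (succ_le_of_lt hP)
    (hκ1.trans (le_succ _)) hcard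
  set F : Set P := f ⁻¹' {a} with hF
  have ha' : succ κ < #F := lt_of_lt_of_le (lt_succ _) ha
  obtain ⟨Q, hQF, hQ⟩ := le_mk_iff_exists_subset.1 ha'.le
  -- the union of the supports
  have hU : #(Q ∪ ⋃ q : Q, S q : Set P) ≤ succ κ := by
    apply mk_union_le_of hκ1 hQ.le
    refine (mk_iUnion_le _).trans ?_
    calc #Q * ⨆ q : Q, #(S (q : P)) ≤ succ κ * κ := by
          gcongr
          · exact hQ.le
          · exact ciSup_le' fun q => hS q
      _ ≤ succ κ * succ κ := by gcongr; exact le_succ κ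
      _ = succ κ := mul_eq_self hκ1
  obtain ⟨p, hpF, hp⟩ : ∃ p ∈ F, p ∉ (Q ∪ ⋃ q : Q, S q : Set P) := by
    by_contra hcon
    push Not at hcon
    have : #F ≤ succ κ := (mk_le_mk_of_subset (fun p hp => hcon p hp)).trans hU
    exact absurd ha' (not_lt.2 this)
  obtain ⟨q, hqQ, hq⟩ : ∃ q ∈ Q, q ∉ S p := by
    by_contra hcon
    push Not at hcon
    have : #Q ≤ κ := (mk_le_mk_of_subset (fun p hp => hcon p hp)).trans (hS p)
    rw [hQ] at this
    exact absurd (lt_succ κ) (not_lt.2 this)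
  refine ⟨p, q, hq, fun hpq => hp (Or.inr (Set.mem_iUnion.2 ⟨⟨q, hqQ⟩, hpq⟩)), ?_⟩
  have h1 : f p = a := hpF
  have h2 : f q = a := hQF hqQ
  exact congrArg ULift.down (h1.trans h2.symm)

end

section
variable {G : Type u} [AddCommGroup G] [Lattice G] [IsOrderedAddMonoid G]
  {P : Type u} {κ : Cardinal.{u}} {hκ : ℵ₀ ≤ κ} {h : ℕ ≃ ℕ}
variable {s : G → P → P → Pt} {e : G}

lemma exists_D (p : P) : ∃ D ∈ Gam h κ hκ P, ∀ q, D p q = ((Set.univ : Set ℕ), 1) ∧
    D q p = ((Set.univ : Set ℕ), 1) := by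
  classical
  refine ⟨fun r t => if r = p ∨ t = p then ((Set.univ : Set ℕ), 1) else ⊥, ⟨?_, ?_, {p}, ?_, ?_,
    ⊥, Or.inl rfl, ?_⟩, ?_⟩
  · intro r t
    simp only
    split_ifs
    · refine ⟨fun hh => ?_, fun _ => ?_⟩
      · exfalso
        have h2 : (1 : Fin 3) = 0 := hh
        exact absurd h2 (by decide)
      · show ((Set.univ : Set ℕ)ᶜ).Finite
        simp
    · exact DY_bot
  · refine (Set.toFinite ({((Set.univ : Set ℕ), 1), ⊥} : Set Pt)).subset ?_
    rintro _ ⟨pq, rfl⟩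
    simp only
    split_ifs
    · exact Or.inl rfl
    · exact Or.inr rfl
  · exact ((Set.toFinite ({p} : Set P)).lt_aleph0.le).trans hκ
  · intro r
    by_cases hr : r = p
    · refine ⟨((Set.univ : Set ℕ), 1), fun t ht => ⟨if_pos (Or.inl hr), ?_⟩⟩
      exact (if_pos (Or.inr hr)).trans rfl
    · refine ⟨⊥, fun t ht => ?_⟩
      have h1 : ¬ (r = p ∨ t = p) := by
        rintro (h1 | h1)
        · exact hr h1
        · exact ht h1
      have h2 : ¬ (t = p ∨ r = p) := fun hh => h1 hh.symm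
      exact ⟨if_neg h1, if_neg h2⟩
  · intro r hr t ht
    have h1 : ¬ (r = p ∨ t = p) := by
      rintro (h1 | h1)
      · exact hr h1
      · exact ht h1
    exact if_neg h1
  · intro q
    exact ⟨if_pos (Or.inl rfl), if_pos (Or.inr rfl)⟩

/-- the data attached to an index -/
lemma RepOf.exists_data (H : RepOf s κ hκ h e) (p : P) :
    ∃ (f : G) (S : Set P) (τ : ℕ → ℕ → Pt), 0 ≤ f ∧
      (∀ q, s f p q = ((Set.univ : Set ℕ), 1) ∧ s f q p = ((Set.univ : Set ℕ), 1)) ∧ #S ≤ κ ∧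
      ∀ q ∉ S, ∀ m n : ℕ, s ((n • f - m • e) ⊔ 0) p q = τ m n ∧
        s ((n • f - m • e) ⊔ 0) q p = hs h (τ m n) := by
  obtain ⟨D, hD, hD1⟩ := exists_D (h := h) (κ := κ) (hκ := hκ) p
  obtain ⟨f, hf⟩ := H.surj D hD
  choose S hS using fun mn : ℕ × ℕ => (H.mem ((mn.2 • |f| - mn.1 • e) ⊔ 0)).2.2
  choose x hx using fun mn : ℕ × ℕ => (hS mn).2.1 p
  refine ⟨|f|, ⋃ mn, S mn, fun m n => x (m, n), abs_nonneg f, ?_, ?_, ?_⟩
  · rw [H.abs, hf]
    exact hD1
  · have h1 : (⋃ mn, S mn) = ⋃ mn : ULift.{u} (ℕ × ℕ), S mn.down := by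
      ext r
      simp only [Set.mem_iUnion]
      constructor
      · rintro ⟨mn, hmn⟩
        exact ⟨ULift.up mn, hmn⟩
      · rintro ⟨mn, hmn⟩
        exact ⟨mn.down, hmn⟩
    rw [h1]
    refine (mk_iUnion_le _).trans ?_
    calc #(ULift.{u} (ℕ × ℕ)) * ⨆ mn : ULift.{u} (ℕ × ℕ), #(S mn.down) ≤ κ * κ := by
          gcongr
          · exact (mk_le_aleph0).trans hκ
          · exact ciSup_le' fun mn => (hS mn.down).1
      _ = κ := mul_eq_self hκ
  · intro q hq m n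
    exact hx (m, n) q (fun hh => hq (Set.mem_iUnion.2 ⟨(m, n), hh⟩))

lemma snd_eq_zero_of {ε : Fin 3} {δ : Fin 3} (h1 : ε ≤ 1) (h2 : 1 ⊔ δ = 2) (h3 : ε ⊓ δ = 0) : ε = 0 := by
  revert ε δ
  decide

/-- the values of `(n f - m e)⁺` are finite -/
lemma RepOf.fin (H : RepOf s κ hκ h e) {f : G} (hf : 0 ≤ f) {p q : P}
    (hfpq : s f p q = ((Set.univ : Set ℕ), 1)) (m n : ℕ) :
    ((s ((n • f - (m + 1) • e) ⊔ 0)) p q).1.Finite := by
  set w := (n • f - (m + 1) • e) ⊔ 0 with hw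
  set w' := ((m + 1) • e - n • f) ⊔ 0 with hw'
  apply ((H.mem w).1 p q).1
  have hme : 0 ≤ (m + 1) • e := nsmul_nonneg H.nonneg _
  have hnf : 0 ≤ n • f := nsmul_nonneg hf _
  have h1 : (s w p q).2 ≤ 1 := by
    have h2 : s w ≤ s f := by
      rw [H.le_iff]
      refine ⟨n, ?_⟩
      rw [abs_of_nonneg (le_sup_right : (0 : G) ≤ w), abs_of_nonneg hf]
      exact sup_le (sub_le_self _ hme) hnf
    have h3 := (h2 p q).2
    rw [hfpq] at h3
    exact h3
  have h2 : (1 : Fin 3) ⊔ (s w' p q).2 = 2 := by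
    have h4 : s e ≤ s f ⊔ s w' := by
      have h5 : s e ≤ s (n • f + w') := by
        apply H.mono
        rw [abs_of_nonneg H.nonneg, abs_of_nonneg (add_nonneg hnf le_sup_right)]
        calc e ≤ (m + 1) • e := by
              rw [succ_nsmul]
              exact le_add_of_nonneg_left (nsmul_nonneg H.nonneg m)
          _ = n • f + ((m + 1) • e - n • f) := by abel
          _ ≤ _ := add_le_add le_rfl le_sup_left
      refine h5.trans ((H.add _ _).trans ?_)
      exact sup_le_sup (H.nsmul n f) le_rfl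
    rw [H.top] at h4
    have h6 := (h4 p q).2
    simp only [Pi.sup_apply] at h6
    rw [hfpq] at h6
    exact le_antisymm (Fin.le_last _) h6
  have h3 : (s w p q).2 ⊓ (s w' p q).2 = 0 := by
    have h7 := H.disj (x := w) (y := w') le_sup_right le_sup_right (pos_inf_neg' _ _)
    have h8 := congrFun (congrFun h7 p) q
    exact congrArg Prod.snd h8
  exact snd_eq_zero_of h1 h2 h3

/-- the contradiction -/
theorem no_rep (hc : continuum.{u} ≤ κ) (hP : succ κ < #P)
    (hfix : {k : ℕ | h k = k}.Infinite) (b : ℕ → ℕ) (hb : Function.Injective b)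
    (hbh : ∀ i, h (b i) = b (i + 1)) (H : RepOf s κ hκ h e) : False := by
  choose f S τ hf0 hf1 hS hτ using H.exists_data
  obtain ⟨p, q, hqp, hpq, ht⟩ := pigeon hκ hc hP S hS (fun p m n => (τ p m n).1)
  have htau : ∀ m n, (τ p m n).1 = (τ q m n).1 := fun m n => congrFun (congrFun ht m) n
  have hI := fun k => H.maxI p q k
  -- values at `(p, q)`
  have hvp : ∀ k m n, LeI (fun x => k ∉ (s x p q).1) (n • f p) (m • e) ↔ k ∉ (τ p m n).1 := by
    intro k m n
    have := (hτ p q hqp m n).1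
    simp only [LeI, this]
  have hvq : ∀ k m n, LeI (fun x => k ∉ (s x p q).1) (n • f q) (m • e) ↔ h k ∉ (τ p m n).1 := by
    intro k m n
    have := (hτ q p hpq m n).2
    simp only [LeI, this, htau]
    rfl
  have hfp : s (f p) p q = ((Set.univ : Set ℕ), 1) := (hf1 p q).1
  have hfq : s (f q) p q = ((Set.univ : Set ℕ), 1) := (hf1 q p).2
  have hbound : ∀ x : G, ∃ n : ℕ, x ≤ n • e := H.unit
  -- fixed points
  have hF1 : (s ((f p - f q) ⊔ 0) p q).1.Finite := by
    apply ((H.mem _).1 p q).1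
    by_contra hne
    have h1 := ((H.mem ((f p - f q) ⊔ 0)).1 p q).2 hne
    apply hfix
    refine h1.subset ?_
    intro k hk
    have hk' : h k = k := hk
    show k ∉ (s ((f p - f q) ⊔ 0) p q).1
    refine compare (hI k) H.nonneg (hf0 p) (hf0 q) (hbound _) ?_
    intro m n hmn
    rw [hvq, hk'] at hmn
    rw [hvp]
    exact hmn
  have hF2 : (s ((f q - f p) ⊔ 0) p q).1.Finite := by
    apply ((H.mem _).1 p q).1
    by_contra hne
    have h1 := ((H.mem ((f q - f p) ⊔ 0)).1 p q).2 hne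
    apply hfix
    refine h1.subset ?_
    intro k hk
    have hk' : h k = k := hk
    show k ∉ (s ((f q - f p) ⊔ 0) p q).1
    refine compare (hI k) H.nonneg (hf0 q) (hf0 p) (hbound _) ?_
    intro m n hmn
    rw [hvp] at hmn
    rw [hvq, hk']
    exact hmn
  -- away from a finite set
  have hstep : ∀ k, k ∉ (s ((f p - f q) ⊔ 0) p q).1 ∪ (s ((f q - f p) ⊔ 0) p q).1 →
      ∀ m n, (k ∉ (τ p m n).1 ↔ h k ∉ (τ p m n).1) := by
    intro k hk m n
    have hk1 : LeI (fun x => k ∉ (s x p q).1) (f p) (f q) := fun hh => hk (Or.inl hh)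
    have hk2 : LeI (fun x => k ∉ (s x p q).1) (f q) (f p) := fun hh => hk (Or.inr hh)
    rw [← hvp, ← hvq]
    constructor
    · intro h1
      exact (hk2.nsmul (hI k) n).trans (hI k) h1
    · intro h1
      exact (hk1.nsmul (hI k) n).trans (hI k) h1
  obtain ⟨i0, hi0⟩ : ∃ i0, ∀ i, i0 ≤ i →
      b i ∉ (s ((f p - f q) ⊔ 0) p q).1 ∪ (s ((f q - f p) ⊔ 0) p q).1 := by
    have hfin := ((hF1.union hF2).preimage (f := b) hb.injOn)
    obtain ⟨N, hN⟩ := hfin.bddAbove
    refine ⟨N + 1, fun i hi hmem => ?_⟩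
    have := hN (show i ∈ b ⁻¹' _ from hmem)
    omega
  have hconst : ∀ m n j, (b i0 ∉ (τ p m n).1 ↔ b (i0 + j) ∉ (τ p m n).1) := by
    intro m n j
    induction j with
    | zero => simp
    | succ j ih =>
      rw [ih, hstep _ (hi0 (i0 + j) (Nat.le_add_right _ _)) m n, hbh]
      rfl
  have hnot : ∀ n, b i0 ∉ (τ p 1 n).1 := by
    intro n
    have hfinτ : (τ p 1 n).1.Finite := by
      have h1 := H.fin (hf0 p) hfp 0 n
      rw [(hτ p q hqp (0 + 1) n).1] at h1
      exact h1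
    obtain ⟨N, hN⟩ := (hfinτ.preimage (f := b) hb.injOn).bddAbove
    rw [hconst 1 n (N + 1)]
    intro hmem
    have := hN (show i0 + (N + 1) ∈ b ⁻¹' _ from hmem)
    omega
  -- but `f p` is not infinitely small
  obtain ⟨n, hn⟩ := exists_large (hI (b i0)) H.nonneg (hf0 p) (by rw [hfp]; simp)
  rw [hvp] at hn
  exact hn (hnot n)

theorem not_inCu (hc : continuum.{u} ≤ κ) (hP : succ κ < #P)
    (hfix : {k : ℕ | h k = k}.Infinite) (b : ℕ → ℕ) (hb : Function.Injective b)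
    (hbh : ∀ i, h (b i) = b (i + 1)) : ¬ InCu (Gam h κ hκ P) := by
  rintro ⟨G, i1, i2, i3, -, ⟨e, he, hunit⟩, ⟨iso⟩⟩
  obtain ⟨σ, hσ, hle⟩ := sigma_of_iso iso
  have H : RepOf (fun x => (σ x).1) κ hκ h e := by
    refine ⟨fun x => (σ x).2, fun d hd => ?_, fun x y => ?_, he, fun x => ?_⟩
    · obtain ⟨x, hx⟩ := hσ ⟨d, hd⟩
      exact ⟨x, congrArg Subtype.val hx⟩
    · exact hle x y
    · obtain ⟨n, -, hn⟩ := hunit x
      exact ⟨n, hn⟩
  exact no_rep hc hP hfix b hb hbh H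

end

/-- a permutation of `ℕ` with infinitely many fixed points and an infinite orbit -/
lemma exists_perm : ∃ h : ℕ ≃ ℕ, {k : ℕ | h k = k}.Infinite ∧ ∃ b : ℕ → ℕ, Function.Injective b ∧
    ∀ i, h (b i) = b (i + 1) := by
  obtain ⟨e⟩ : Nonempty (ℕ ≃ ℕ ⊕ ℤ) := ⟨(Denumerable.eqv (ℕ ⊕ ℤ)).symm⟩
  refine ⟨e.trans ((Equiv.sumCongr (Equiv.refl ℕ) (Equiv.addRight (1 : ℤ))).trans e.symm), ?_,
    fun i => e.symm (Sum.inr (i : ℤ)), ?_, ?_⟩
  · have h1 : (Set.range fun n : ℕ => e.symm (Sum.inl n)).Infinite := by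
      apply Set.infinite_range_of_injective
      intro a b hab
      simpa using hab
    refine h1.mono ?_
    rintro _ ⟨n, rfl⟩
    simp
  · intro a b hab
    simpa using hab
  · intro i
    simp

end Pool.Agent.H47.LInf
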