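import Pool.Agent.H47.LInf.Defs

set_option autoImplicit false

namespace Pool.Agent.H47.LInf

open Cardinal

universe u

/-- local values -/
abbrev Pt := Set ℕ × Fin 3

/-- admissible local values -/
def DY (x : Pt) : Prop := (x.2 = 0 → x.1.Finite) ∧ (x.2 ≠ 0 → (x.1ᶜ).Finite)

lemma DY_bot : DY (⊥ : Pt) := by
  refine ⟨fun _ => ?_, fun h => absurd rfl h⟩
  exact Set.finite_empty

lemma DY_top : DY (⊤ : Pt) := by
  refine ⟨fun h => ?_, fun _ => ?_⟩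
  · exact absurd h (by decide)
  · show ((Set.univ : Set ℕ)ᶜ).Finite
    simp

lemma DY_sup {x y : Pt} (hx : DY x) (hy : DY y) : DY (x ⊔ y) := by
  obtain ⟨A, e⟩ := x
  obtain ⟨B, f⟩ := y
  simp only [DY, Prod.mk_sup_mk] at *
  constructor
  · intro h
    have h1 : e = 0 := by
      have : e ≤ e ⊔ f := le_sup_left
      rw [h] at this
      exact le_antisymm this (Fin.zero_le _)
    have h2 : f = 0 := by
      have : f ≤ e ⊔ f := le_sup_right
      rw [h] at this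
      exact le_antisymm this (Fin.zero_le _)
    exact (hx.1 h1).union (hy.1 h2)
  · intro h
    by_cases h1 : e = 0
    · have h2 : f ≠ 0 := by
        rintro rfl
        apply h
        rw [h1]
        rfl
      refine (hy.2 h2).subset ?_
      intro k hk hk2
      exact hk (Or.inr hk2)
    · refine (hx.2 h1).subset ?_
      intro k hk hk2
      exact hk (Or.inl hk2)

lemma DY_inf {x y : Pt} (hx : DY x) (hy : DY y) : DY (x ⊓ y) := by
  obtain ⟨A, e⟩ := x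
  obtain ⟨B, f⟩ := y
  simp only [DY, Prod.mk_inf_mk] at *
  constructor
  · intro h
    by_cases h1 : e = 0
    · exact (hx.1 h1).subset Set.inter_subset_left
    · have h2 : f = 0 := by
        by_contra h2
        have h3 : e ⊓ f = e ∨ e ⊓ f = f := by
          rcases le_total e f with h4 | h4
          · left; exact inf_eq_left.2 h4
          · right; exact inf_eq_right.2 h4
        rcases h3 with h3 | h3
        · exact h1 (h3 ▸ h)
        · exact h2 (h3 ▸ h)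
      exact (hy.1 h2).subset Set.inter_subset_right
  · intro h
    have h1 : e ≠ 0 := by
      rintro rfl
      apply h
      exact inf_eq_left.2 (Fin.zero_le _)
    have h2 : f ≠ 0 := by
      rintro rfl
      apply h
      exact inf_eq_right.2 (Fin.zero_le _)
    have : (A ⊓ B)ᶜ = Aᶜ ∪ Bᶜ := Set.compl_inter A B
    rw [this]
    exact (hx.2 h1).union (hy.2 h2)

/-- the action of a permutation -/
def hs (h : ℕ ≃ ℕ) (x : Pt) : Pt := (h ⁻¹' x.1, x.2)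

variable (h : ℕ ≃ ℕ)

lemma hs_sup (x y : Pt) : hs h (x ⊔ y) = hs h x ⊔ hs h y := rfl
lemma hs_inf (x y : Pt) : hs h (x ⊓ y) = hs h x ⊓ hs h y := rfl
lemma hs_bot : hs h ⊥ = ⊥ := rfl
lemma hs_top : hs h ⊤ = ⊤ := rfl
lemma hs_const {c : Pt} (hc : c = ⊥ ∨ c = ⊤) : hs h c = c := by
  rcases hc with rfl | rfl <;> rfl
lemma hs_symm_hs (x : Pt) : hs h.symm (hs h x) = x := by
  obtain ⟨A, e⟩ := x
  simp only [hs]
  congr 1
  rw [← Set.preimage_comp]
  simp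
lemma hs_hs_symm (x : Pt) : hs h (hs h.symm x) = x := by
  have := hs_symm_hs h.symm x
  simpa using this
lemma hs_mono {x y : Pt} (hxy : x ≤ y) : hs h x ≤ hs h y :=
  ⟨Set.preimage_mono hxy.1, hxy.2⟩
lemma DY_hs {x : Pt} (hx : DY x) : DY (hs h x) := by
  constructor
  · intro h1
    exact (hx.1 h1).preimage h.injective.injOn
  · intro h1
    have := (hx.2 h1).preimage (f := h) h.injective.injOn
    exact this

/-- `S` supports `d` -/
def Supp {P : Type u} (κ : Cardinal.{u}) (d : P → P → Pt) (S : Set P) : Prop :=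
  #S ≤ κ ∧ (∀ p, ∃ x, ∀ q ∉ S, d p q = x ∧ d q p = hs h x) ∧
    ∃ c : Pt, (c = ⊥ ∨ c = ⊤) ∧ ∀ p ∉ S, ∀ q ∉ S, d p q = c

lemma Supp.mono {P : Type u} {κ : Cardinal.{u}} {d : P → P → Pt} {S T : Set P}
    (hS : Supp h κ d S) (hST : S ⊆ T) (hT : #T ≤ κ) : Supp h κ d T := by
  obtain ⟨-, h1, c, hc, h2⟩ := hS
  refine ⟨hT, ?_, c, hc, fun p hp q hq => h2 p (fun h => hp (hST h)) q (fun h => hq (hST h))⟩
  intro p
  obtain ⟨x, hx⟩ := h1 p
  exact ⟨x, fun q hq => hx q (fun h => hq (hST h))⟩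

lemma const_sup {c c' : Pt} (hc : c = ⊥ ∨ c = ⊤) (hc' : c' = ⊥ ∨ c' = ⊤) : c ⊔ c' = ⊥ ∨ c ⊔ c' = ⊤ := by
  rcases hc with rfl | rfl <;> rcases hc' with rfl | rfl <;> simp

lemma const_inf {c c' : Pt} (hc : c = ⊥ ∨ c = ⊤) (hc' : c' = ⊥ ∨ c' = ⊤) : c ⊓ c' = ⊥ ∨ c ⊓ c' = ⊤ := by
  rcases hc with rfl | rfl <;> rcases hc' with rfl | rfl <;> simp

lemma Supp.sup {P : Type u} {κ : Cardinal.{u}} {d d' : P → P → Pt} {S : Set P}
    (hS : Supp h κ d S) (hS' : Supp h κ d' S) : Supp h κ (d ⊔ d') S := by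
  obtain ⟨hk, h1, c, hc, h2⟩ := hS
  obtain ⟨-, h1', c', hc', h2'⟩ := hS'
  refine ⟨hk, ?_, c ⊔ c', const_sup hc hc', ?_⟩
  · intro p
    obtain ⟨x, hx⟩ := h1 p
    obtain ⟨x', hx'⟩ := h1' p
    refine ⟨x ⊔ x', fun q hq => ?_⟩
    rw [hs_sup]
    simp only [Pi.sup_apply]
    rw [(hx q hq).1, (hx q hq).2, (hx' q hq).1, (hx' q hq).2]
    exact ⟨rfl, rfl⟩
  · intro p hp q hq
    simp only [Pi.sup_apply]
    rw [h2 p hp q hq, h2' p hp q hq]

lemma Supp.inf {P : Type u} {κ : Cardinal.{u}} {d d' : P → P → Pt} {S : Set P}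
    (hS : Supp h κ d S) (hS' : Supp h κ d' S) : Supp h κ (d ⊓ d') S := by
  obtain ⟨hk, h1, c, hc, h2⟩ := hS
  obtain ⟨-, h1', c', hc', h2'⟩ := hS'
  refine ⟨hk, ?_, c ⊓ c', const_inf hc hc', ?_⟩
  · intro p
    obtain ⟨x, hx⟩ := h1 p
    obtain ⟨x', hx'⟩ := h1' p
    refine ⟨x ⊓ x', fun q hq => ?_⟩
    rw [hs_inf]
    simp only [Pi.inf_apply]
    rw [(hx q hq).1, (hx q hq).2, (hx' q hq).1, (hx' q hq).2]
    exact ⟨rfl, rfl⟩
  · intro p hp q hq
    simp only [Pi.inf_apply]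
    rw [h2 p hp q hq, h2' p hp q hq]

lemma mk_union_le_of {P : Type u} {κ : Cardinal.{u}} (hκ : ℵ₀ ≤ κ) {S T : Set P} (hS : #S ≤ κ)
    (hT : #T ≤ κ) : #(S ∪ T : Set P) ≤ κ :=
  (mk_union_le S T).trans ((add_le_add hS hT).trans (add_eq_self hκ).le)

/-- the lattice `Γ(P)` -/
def Gam (κ : Cardinal.{u}) (hκ : ℵ₀ ≤ κ) (P : Type u) : Sublattice (P → P → Pt) where
  carrier := {d | (∀ p q, DY (d p q)) ∧ (Set.range (fun pq : P × P => d pq.1 pq.2)).Finite ∧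
    ∃ S, Supp h κ d S}
  supClosed' := by
    rintro d ⟨h1, h2, S, hS⟩ d' ⟨h1', h2', S', hS'⟩
    have hSS := mk_union_le_of hκ hS.1 hS'.1
    refine ⟨fun p q => DY_sup (h1 p q) (h1' p q), ?_, S ∪ S',
      (hS.mono h Set.subset_union_left hSS).sup h (hS'.mono h Set.subset_union_right hSS)⟩
    refine (Set.Finite.image2 (fun x y => x ⊔ y) h2 h2').subset ?_
    rintro _ ⟨pq, rfl⟩
    exact ⟨_, ⟨pq, rfl⟩, _, ⟨pq, rfl⟩, rfl⟩
  infClosed' := by
    rintro d ⟨h1, h2, S, hS⟩ d' ⟨h1', h2', S', hS'⟩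
    have hSS := mk_union_le_of hκ hS.1 hS'.1
    refine ⟨fun p q => DY_inf (h1 p q) (h1' p q), ?_, S ∪ S',
      (hS.mono h Set.subset_union_left hSS).inf h (hS'.mono h Set.subset_union_right hSS)⟩
    refine (Set.Finite.image2 (fun x y => x ⊓ y) h2 h2').subset ?_
    rintro _ ⟨pq, rfl⟩
    exact ⟨_, ⟨pq, rfl⟩, _, ⟨pq, rfl⟩, rfl⟩

lemma mem_Gam {κ : Cardinal.{u}} {hκ : ℵ₀ ≤ κ} {P : Type u} {d : P → P → Pt} :
    d ∈ Gam h κ hκ P ↔ (∀ p q, DY (d p q)) ∧ (Set.range (fun pq : P × P => d pq.1 pq.2)).Finite ∧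
    ∃ S, Supp h κ d S := Iff.rfl

end Pool.Agent.H47.LInf
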