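import Pool.Agent.H47.LInf.Gam
import Pool.Agent.H47.LInf.Crit

set_option autoImplicit false

namespace Pool.Agent.H47.LInf

open Cardinal Filter Topology

universe u

/-- sequences which are eventually `a + b 2^{-k}` -/
def GY (f : ℕ → ℝ) : Prop := ∃ a b : ℤ, ∀ᶠ k in atTop, f k = a + b * (1 / 2 : ℝ) ^ k

lemma half_pos' (k : ℕ) : 0 < (1 / 2 : ℝ) ^ k := by positivity

lemma tendsto_ab (a b : ℝ) : Tendsto (fun k : ℕ => a + b * (1 / 2 : ℝ) ^ k) atTop (𝓝 a) := by
  have h1 : Tendsto (fun k : ℕ => (1 / 2 : ℝ) ^ k) atTop (𝓝 0) :=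
    tendsto_pow_atTop_nhds_zero_of_lt_one (by norm_num) (by norm_num)
  have h2 := (h1.const_mul b).const_add a
  simpa using h2

lemma compare_ab (a b a' b' : ℤ) :
    (∀ᶠ k : ℕ in atTop, (a : ℝ) + b * (1 / 2 : ℝ) ^ k ≤ a' + b' * (1 / 2 : ℝ) ^ k) ∨
    (∀ᶠ k : ℕ in atTop, (a' : ℝ) + b' * (1 / 2 : ℝ) ^ k ≤ a + b * (1 / 2 : ℝ) ^ k) := by
  rcases lt_trichotomy a a' with h | h | h
  · left
    have h1 := (tendsto_ab a b).eventually_lt (tendsto_ab a' b') (by exact_mod_cast h)
    exact h1.mono fun k hk => hk.le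
  · subst h
    rcases le_total b b' with h | h
    · left
      refine Eventually.of_forall fun k => ?_
      have : (b : ℝ) ≤ b' := by exact_mod_cast h
      have := half_pos' k
      gcongr
    · right
      refine Eventually.of_forall fun k => ?_
      have : (b' : ℝ) ≤ b := by exact_mod_cast h
      have := half_pos' k
      gcongr
  · right
    have h1 := (tendsto_ab a' b').eventually_lt (tendsto_ab a b) (by exact_mod_cast h)
    exact h1.mono fun k hk => hk.le

lemma GY_add {f g : ℕ → ℝ} (hf : GY f) (hg : GY g) : GY (f + g) := by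
  obtain ⟨a, b, h⟩ := hf
  obtain ⟨a', b', h'⟩ := hg
  refine ⟨a + a', b + b', ?_⟩
  filter_upwards [h, h'] with k hk hk'
  simp only [Pi.add_apply, hk, hk']
  push_cast; ring

lemma GY_neg {f : ℕ → ℝ} (hf : GY f) : GY (-f) := by
  obtain ⟨a, b, h⟩ := hf
  refine ⟨-a, -b, ?_⟩
  filter_upwards [h] with k hk
  simp only [Pi.neg_apply, hk]
  push_cast; ring

lemma GY_zero : GY 0 := ⟨0, 0, Eventually.of_forall fun k => by simp⟩

lemma GY_sup {f g : ℕ → ℝ} (hf : GY f) (hg : GY g) : GY (f ⊔ g) := by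
  obtain ⟨a, b, h⟩ := hf
  obtain ⟨a', b', h'⟩ := hg
  rcases compare_ab a b a' b' with hc | hc
  · refine ⟨a', b', ?_⟩
    filter_upwards [h, h', hc] with k hk hk' hck
    simp only [Pi.sup_apply, hk, hk']
    exact sup_eq_right.2 hck
  · refine ⟨a, b, ?_⟩
    filter_upwards [h, h', hc] with k hk hk' hck
    simp only [Pi.sup_apply, hk, hk']
    exact sup_eq_left.2 hck

lemma GY_inf {f g : ℕ → ℝ} (hf : GY f) (hg : GY g) : GY (f ⊓ g) := by
  obtain ⟨a, b, h⟩ := hf
  obtain ⟨a', b', h'⟩ := hg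
  rcases compare_ab a b a' b' with hc | hc
  · refine ⟨a, b, ?_⟩
    filter_upwards [h, h', hc] with k hk hk' hck
    simp only [Pi.inf_apply, hk, hk']
    exact inf_eq_left.2 hck
  · refine ⟨a', b', ?_⟩
    filter_upwards [h, h', hc] with k hk hk' hck
    simp only [Pi.inf_apply, hk, hk']
    exact inf_eq_right.2 hck

lemma GY_const (c : ℤ) : GY (fun _ => (c : ℝ)) := ⟨c, 0, Eventually.of_forall fun k => by simp⟩

lemma GY_bdd {f : ℕ → ℝ} (hf : GY f) : ∃ n : ℕ, ∀ k, |f k| ≤ n := by
  obtain ⟨a, b, h⟩ := hf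
  have h1 : Tendsto f atTop (𝓝 a) := (tendsto_ab a b).congr' (h.mono fun k hk => hk.symm)
  obtain ⟨C, hC⟩ := (Metric.isBounded_range_of_tendsto f h1).exists_norm_le
  refine ⟨⌈C⌉₊, fun k => ?_⟩
  exact (hC _ ⟨k, rfl⟩).trans (Nat.le_ceil C)

open Classical in
/-- the support map -/
noncomputable def sY (f : ℕ → ℝ) : Pt :=
  ({k | f k ≠ 0}, if ∀ᶠ k in atTop, f k = 0 then 0 else if Tendsto f atTop (𝓝 0) then 1 else 2)

lemma sY_fst (f : ℕ → ℝ) : (sY f).1 = {k | f k ≠ 0} := rfl

/-- the three cases -/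
lemma sY_snd_zero {f : ℕ → ℝ} {a b : ℤ} (h : ∀ᶠ k in atTop, f k = a + b * (1 / 2 : ℝ) ^ k)
    (ha : a = 0) (hb : b = 0) : (sY f).2 = 0 := by
  subst ha hb
  have : ∀ᶠ k in atTop, f k = 0 := h.mono fun k hk => by simpa using hk
  simp [sY, this]

lemma not_ev_zero {f : ℕ → ℝ} {a b : ℤ} (h : ∀ᶠ k in atTop, f k = a + b * (1 / 2 : ℝ) ^ k)
    (hab : a ≠ 0 ∨ b ≠ 0) : ∀ᶠ k in atTop, f k ≠ 0 := by
  by_cases ha : a = 0
  · have hb : b ≠ 0 := by tauto
    filter_upwards [h] with k hk
    rw [hk, ha]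
    have := half_pos' k
    have hb' : (b : ℝ) ≠ 0 := by exact_mod_cast hb
    simp only [Int.cast_zero, zero_add]
    positivity
  · have h1 : Tendsto f atTop (𝓝 a) := (tendsto_ab a b).congr' (h.mono fun k hk => hk.symm)
    exact h1.eventually_ne (by exact_mod_cast ha)

lemma sY_snd_one {f : ℕ → ℝ} {a b : ℤ} (h : ∀ᶠ k in atTop, f k = a + b * (1 / 2 : ℝ) ^ k)
    (ha : a = 0) (hb : b ≠ 0) : (sY f).2 = 1 := by
  have h1 := not_ev_zero h (Or.inr hb)
  have h2 : ¬ ∀ᶠ k in atTop, f k = 0 := by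
    intro h3
    obtain ⟨k, hk1, hk2⟩ := (h1.and h3).exists
    exact hk1 hk2
  have h3 : Tendsto f atTop (𝓝 0) := by
    have := (tendsto_ab a b).congr' (h.mono fun k hk => hk.symm)
    rwa [ha, Int.cast_zero] at this
  simp [sY, h2, h3]

lemma sY_snd_two {f : ℕ → ℝ} {a b : ℤ} (h : ∀ᶠ k in atTop, f k = a + b * (1 / 2 : ℝ) ^ k)
    (ha : a ≠ 0) : (sY f).2 = 2 := by
  have h1 := not_ev_zero h (Or.inl ha)
  have h2 : ¬ ∀ᶠ k in atTop, f k = 0 := by
    intro h3
    obtain ⟨k, hk1, hk2⟩ := (h1.and h3).exists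
    exact hk1 hk2
  have h3 : ¬ Tendsto f atTop (𝓝 0) := by
    intro h3
    have h4 := (tendsto_ab a b).congr' (h.mono fun k hk => hk.symm)
    have := tendsto_nhds_unique h4 h3
    exact ha (by exact_mod_cast this)
  simp [sY, h2, h3]

lemma DY_sY {f : ℕ → ℝ} (hf : GY f) : DY (sY f) := by
  obtain ⟨a, b, h⟩ := hf
  by_cases hab : a = 0 ∧ b = 0
  · constructor
    · intro _
      have : ∀ᶠ k in atTop, f k = 0 := h.mono fun k hk => by
        rw [hab.1, hab.2] at hk; simpa using hk
      rw [← Nat.cofinite_eq_atTop] at this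
      exact this
    · intro h1
      exact absurd (sY_snd_zero h hab.1 hab.2) h1
  · have hab' : a ≠ 0 ∨ b ≠ 0 := by tauto
    constructor
    · intro h1
      exfalso
      by_cases ha : a = 0
      · have hb : b ≠ 0 := by tauto
        rw [sY_snd_one h ha hb] at h1
        exact absurd h1 (by decide)
      · rw [sY_snd_two h ha] at h1
        exact absurd h1 (by decide)
    · intro _
      have := not_ev_zero h hab'
      rw [← Nat.cofinite_eq_atTop] at this
      exact this

lemma sY_const (c : ℤ) : sY (fun _ => (c : ℝ)) = ⊥ ∨ sY (fun _ => (c : ℝ)) = ⊤ := by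
  by_cases hc : c = 0
  · left
    apply Prod.ext
    · rw [sY_fst]
      subst hc
      simp
    · rw [sY_snd_zero (a := 0) (b := 0) (Eventually.of_forall fun k => by simp [hc]) rfl rfl]
      rfl
  · right
    apply Prod.ext
    · rw [sY_fst]
      have : (c : ℝ) ≠ 0 := by exact_mod_cast hc
      simp [this]
    · rw [sY_snd_two (a := c) (b := 0) (Eventually.of_forall fun k => by simp) hc]
      rfl

lemma ev_bound {f g : ℕ → ℝ} (hf : GY f) (hg : GY g) (hle : (sY f).2 ≤ (sY g).2) :
    ∃ n : ℕ, ∀ᶠ k in atTop, |f k| ≤ n * |g k| := by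
  obtain ⟨a, b, h⟩ := hf
  obtain ⟨a', b', h'⟩ := hg
  by_cases ha' : a' = 0
  · by_cases hb' : b' = 0
    · -- g eventually zero
      rw [sY_snd_zero h' ha' hb'] at hle
      have hab : a = 0 ∧ b = 0 := by
        by_contra hcon
        by_cases ha : a = 0
        · have hb : b ≠ 0 := by tauto
          rw [sY_snd_one h ha hb] at hle
          exact absurd hle (by decide)
        · rw [sY_snd_two h ha] at hle
          exact absurd hle (by decide)
      refine ⟨0, ?_⟩
      filter_upwards [h] with k hk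
      rw [hk, hab.1, hab.2]
      simp
    · rw [sY_snd_one h' ha' hb'] at hle
      have ha : a = 0 := by
        by_contra ha
        rw [sY_snd_two h ha] at hle
        exact absurd hle (by decide)
      refine ⟨b.natAbs, ?_⟩
      filter_upwards [h, h'] with k hk hk'
      rw [hk, hk', ha, ha']
      simp only [Int.cast_zero, zero_add, abs_mul, Nat.cast_natAbs, Int.cast_abs]
      have h1 : (1 : ℝ) ≤ |(b' : ℝ)| := by
        have : (1 : ℤ) ≤ |b'| := Int.one_le_abs hb'
        exact_mod_cast this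
      have h2 : 0 ≤ |(1 / 2 : ℝ) ^ k| := abs_nonneg _
      have h3 : 0 ≤ |(b : ℝ)| := abs_nonneg _
      calc |(b : ℝ)| * |(1 / 2 : ℝ) ^ k| = |(b : ℝ)| * (1 * |(1 / 2 : ℝ) ^ k|) := by ring
        _ ≤ |(b : ℝ)| * (|(b' : ℝ)| * |(1 / 2 : ℝ) ^ k|) := by gcongr
  · -- g bounded below
    have h1 : Tendsto g atTop (𝓝 a') := (tendsto_ab a' b').congr' (h'.mono fun k hk => hk.symm)
    obtain ⟨n, hn⟩ := GY_bdd ⟨a, b, h⟩
    have h2 : ∀ᶠ k in atTop, (1 / 2 : ℝ) < |g k| := by
      have h3 := h1.abs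
      apply h3.eventually_const_lt
      have : (1 : ℤ) ≤ |a'| := Int.one_le_abs ha'
      have : (1 : ℝ) ≤ |(a' : ℝ)| := by exact_mod_cast this
      linarith
    refine ⟨2 * n, ?_⟩
    filter_upwards [h2] with k hk
    have h4 := hn k
    push_cast
    have h5 : (0 : ℝ) ≤ n := Nat.cast_nonneg n
    nlinarith

lemma sY_le_iff {f g : ℕ → ℝ} (hf : GY f) (hg : GY g) :
    sY f ≤ sY g ↔ ∃ n : ℕ, ∀ k, |f k| ≤ n * |g k| := by
  constructor
  · rintro ⟨h1, h2⟩
    obtain ⟨n, hn⟩ := ev_bound hf hg h2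
    obtain ⟨K, hK⟩ := eventually_atTop.1 hn
    -- finitely many remaining
    have hfin : ∀ K : ℕ, ∃ m : ℕ, ∀ k < K, |f k| ≤ m * |g k| := by
      intro K
      induction K with
      | zero => exact ⟨0, fun k hk => absurd hk (Nat.not_lt_zero k)⟩
      | succ K ih =>
        obtain ⟨m, hm⟩ := ih
        by_cases hgK : g K = 0
        · have hfK : f K = 0 := by
            by_contra hfK
            exact h1 (show K ∈ (sY f).1 from hfK) hgK
          refine ⟨m, fun k hk => ?_⟩
          rcases Nat.lt_succ_iff_lt_or_eq.1 hk with hk | hk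
          · exact hm k hk
          · subst hk; rw [hfK, hgK]; simp
        · refine ⟨m + ⌈|f K| / |g K|⌉₊, fun k hk => ?_⟩
          have hn0 : (0 : ℝ) ≤ (⌈|f K| / |g K|⌉₊ : ℝ) := Nat.cast_nonneg _
          have hm0 : (0 : ℝ) ≤ (m : ℝ) := Nat.cast_nonneg _
          push_cast
          rcases Nat.lt_succ_iff_lt_or_eq.1 hk with hk | hk
          · have := hm k hk
            nlinarith [abs_nonneg (g k)]
          · subst hk
            have hgpos : 0 < |g k| := abs_pos.2 hgK
            have h3 := Nat.le_ceil (|f k| / |g k|)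
            rw [div_le_iff₀ hgpos] at h3
            nlinarith
    obtain ⟨m, hm⟩ := hfin K
    refine ⟨n + m, fun k => ?_⟩
    have hn0 : (0 : ℝ) ≤ (n : ℝ) := Nat.cast_nonneg _
    have hm0 : (0 : ℝ) ≤ (m : ℝ) := Nat.cast_nonneg _
    push_cast
    rcases lt_or_ge k K with hk | hk
    · have := hm k hk
      nlinarith [abs_nonneg (g k)]
    · have := hK k hk
      nlinarith [abs_nonneg (g k)]
  · rintro ⟨n, hn⟩
    constructor
    · intro k hk hgk
      apply hk
      have := hn k
      rw [hgk] at this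
      simpa using this
    · obtain ⟨a, b, h⟩ := hf
      obtain ⟨a', b', h'⟩ := hg
      by_cases ha' : a' = 0
      · have hg0 : Tendsto g atTop (𝓝 0) := by
          have := (tendsto_ab a' b').congr' (h'.mono fun k hk => hk.symm)
          rwa [ha', Int.cast_zero] at this
        have hf0 : Tendsto f atTop (𝓝 0) := by
          rw [tendsto_zero_iff_abs_tendsto_zero]
          have h3 : Tendsto (fun k => (n : ℝ) * |g k|) atTop (𝓝 0) := by
            have := (hg0.abs).const_mul (n : ℝ)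
            simpa using this
          exact squeeze_zero (fun k => abs_nonneg _) hn h3
        have ha : a = 0 := by
          have h4 := (tendsto_ab a b).congr' (h.mono fun k hk => hk.symm)
          have := tendsto_nhds_unique h4 hf0
          exact_mod_cast this
        by_cases hb : b = 0
        · rw [sY_snd_zero h ha hb]; exact Fin.zero_le _
        · have hb' : b' ≠ 0 := by
            intro hb'
            have h5 := not_ev_zero h (Or.inr hb)
            obtain ⟨k, hk1, hk2⟩ := (h5.and h').exists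
            apply hk1
            have := hn k
            rw [hk2, ha', hb'] at this
            simpa using this
          rw [sY_snd_one h ha hb, sY_snd_one h' ha' hb']
      · rw [sY_snd_two h' ha']
        exact Fin.le_last _

end Pool.Agent.H47.LInf
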