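import Pool.Agent.H47.LInf.Rep

set_option autoImplicit false

namespace Pool.Agent.H47.LInf

open Cardinal Filter Topology

universe u

/-- support property for group elements -/
def GSupp {P : Type u} (κ : Cardinal.{u}) (g : P → P → ℕ → ℝ) (S : Set P) : Prop :=
  #S ≤ κ ∧ (∀ p, ∃ f, ∀ q ∉ S, g p q = f ∧ g q p = f) ∧
    ∃ c : ℤ, ∀ p ∉ S, ∀ q ∉ S, g p q = fun _ => (c : ℝ)

lemma GSupp.mono {P : Type u} {κ : Cardinal.{u}} {d : P → P → ℕ → ℝ} {S T : Set P}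
    (hS : GSupp κ d S) (hST : S ⊆ T) (hT : #T ≤ κ) : GSupp κ d T := by
  obtain ⟨-, h1, c, h2⟩ := hS
  refine ⟨hT, ?_, c, fun p hp q hq => h2 p (fun h => hp (hST h)) q (fun h => hq (hST h))⟩
  intro p
  obtain ⟨x, hx⟩ := h1 p
  exact ⟨x, fun q hq => hx q (fun h => hq (hST h))⟩

/-- combining two supported elements by an operation -/
lemma GSupp.op {P : Type u} {κ : Cardinal.{u}} {d d' e : P → P → ℕ → ℝ} {S : Set P}
    (op : (ℕ → ℝ) → (ℕ → ℝ) → (ℕ → ℝ)) (hop : ∀ c c' : ℤ, ∃ c'' : ℤ, op (fun _ => (c : ℝ)) (fun _ => (c' : ℝ)) =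
      fun _ => (c'' : ℝ)) (he : ∀ p q, e p q = op (d p q) (d' p q))
    (hS : GSupp κ d S) (hS' : GSupp κ d' S) : GSupp κ e S := by
  obtain ⟨hk, h1, c, h2⟩ := hS
  obtain ⟨-, h1', c', h2'⟩ := hS'
  obtain ⟨c'', hc''⟩ := hop c c'
  refine ⟨hk, ?_, c'', ?_⟩
  · intro p
    obtain ⟨x, hx⟩ := h1 p
    obtain ⟨x', hx'⟩ := h1' p
    refine ⟨op x x', fun q hq => ?_⟩
    rw [he, he, (hx q hq).1, (hx q hq).2, (hx' q hq).1, (hx' q hq).2]
    exact ⟨rfl, rfl⟩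
  · intro p hp q hq
    rw [he, h2 p hp q hq, h2' p hp q hq, hc'']

/-- membership in the group -/
def GMem {P : Type u} (κ : Cardinal.{u}) (g : P → P → ℕ → ℝ) : Prop :=
  (∀ p q, GY (g p q)) ∧ (Set.range (fun pq : P × P => g pq.1 pq.2)).Finite ∧ ∃ S, GSupp κ g S

lemma GMem.op {P : Type u} {κ : Cardinal.{u}} (hκ : ℵ₀ ≤ κ) {d d' e : P → P → ℕ → ℝ}
    (op : (ℕ → ℝ) → (ℕ → ℝ) → (ℕ → ℝ)) (hop : ∀ c c' : ℤ, ∃ c'' : ℤ, op (fun _ => (c : ℝ)) (fun _ => (c' : ℝ)) =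
      fun _ => (c'' : ℝ)) (he : ∀ p q, e p q = op (d p q) (d' p q))
    (hGY : ∀ f g, GY f → GY g → GY (op f g)) (hd : GMem κ d) (hd' : GMem κ d') : GMem κ e := by
  obtain ⟨h1, h2, S, hS⟩ := hd
  obtain ⟨h1', h2', S', hS'⟩ := hd'
  have hSS := mk_union_le_of hκ hS.1 hS'.1
  refine ⟨fun p q => ?_, ?_, S ∪ S',
      GSupp.op op hop he (hS.mono Set.subset_union_left hSS) (hS'.mono Set.subset_union_right hSS)⟩
  · rw [he]; exact hGY _ _ (h1 p q) (h1' p q)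
  · refine (Set.Finite.image2 op h2 h2').subset ?_
    rintro _ ⟨pq, rfl⟩
    exact ⟨_, ⟨pq, rfl⟩, _, ⟨pq, rfl⟩, (he _ _).symm⟩

/-- the group -/
def GT (κ : Cardinal.{u}) (hκ : ℵ₀ ≤ κ) (P : Type u) : AddSubgroup (P → P → ℕ → ℝ) where
  carrier := {g | GMem κ g}
  zero_mem' := by
    refine ⟨fun p q => GY_zero, ?_, ∅, ?_, ?_, 0, ?_⟩
    · refine (Set.finite_singleton (0 : ℕ → ℝ)).subset ?_
      rintro _ ⟨pq, rfl⟩
      rfl
    · simp
    · intro p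
      exact ⟨0, fun q _ => ⟨rfl, rfl⟩⟩
    · intro p _ q _
      ext k; simp
  add_mem' := by
    intro a b ha hb
    exact GMem.op hκ (fun f g => f + g) (fun c c' => ⟨c + c', by ext k; simp⟩) (fun p q => rfl)
      (fun f g hf hg => GY_add hf hg) ha hb
  neg_mem' := by
    intro a ha
    exact GMem.op hκ (fun f _ => -f) (fun c _ => ⟨-c, by ext k; simp⟩) (fun p q => rfl)
      (fun f g hf _ => GY_neg hf) ha ha

lemma GT_sup {κ : Cardinal.{u}} {hκ : ℵ₀ ≤ κ} {P : Type u} {a b : P → P → ℕ → ℝ} (ha : a ∈ GT κ hκ P)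
    (hb : b ∈ GT κ hκ P) : a ⊔ b ∈ GT κ hκ P :=
  GMem.op hκ (fun f g => f ⊔ g) (fun c c' => ⟨max c c', by ext k; simp⟩) (fun p q => rfl)
      (fun f g hf hg => GY_sup hf hg) ha hb

lemma GT_inf {κ : Cardinal.{u}} {hκ : ℵ₀ ≤ κ} {P : Type u} {a b : P → P → ℕ → ℝ} (ha : a ∈ GT κ hκ P)
    (hb : b ∈ GT κ hκ P) : a ⊓ b ∈ GT κ hκ P :=
  GMem.op hκ (fun f g => f ⊓ g) (fun c c' => ⟨min c c', by ext k; simp⟩) (fun p q => rfl)
      (fun f g hf hg => GY_inf hf hg) ha hb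

instance (κ : Cardinal.{u}) (hκ : ℵ₀ ≤ κ) (P : Type u) : Lattice (GT κ hκ P) :=
  Subtype.lattice (fun _ _ ha hb => GT_sup ha hb) (fun _ _ ha hb => GT_inf ha hb)

instance (κ : Cardinal.{u}) (hκ : ℵ₀ ≤ κ) (P : Type u) : IsOrderedAddMonoid (GT κ hκ P) where
  add_le_add_left := by
    intro a b hab c
    exact add_le_add_left (α := P → P → ℕ → ℝ) hab c

lemma GT_abs {κ : Cardinal.{u}} {hκ : ℵ₀ ≤ κ} {P : Type u} (a : GT κ hκ P) (p q : P) (k : ℕ) :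
    ((|a| : GT κ hκ P) : P → P → ℕ → ℝ) p q k = |(a : P → P → ℕ → ℝ) p q k| := rfl

lemma GT_arch (κ : Cardinal.{u}) (hκ : ℵ₀ ≤ κ) (P : Type u) : IsArch (GT κ hκ P) := by
  intro x y hxy p q k
  have h1 : ∀ n : ℕ, 1 ≤ n → (n : ℝ) * (x : P → P → ℕ → ℝ) p q k ≤ (y : P → P → ℕ → ℝ) p q k := by
    intro n hn
    have := hxy n hn p q k
    simpa using this
  show (x : P → P → ℕ → ℝ) p q k ≤ 0
  by_contra hcon
  push Not at hcon
  obtain ⟨n, hn⟩ := exists_nat_gt ((y : P → P → ℕ → ℝ) p q k / (x : P → P → ℕ → ℝ) p q k)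
  rw [div_lt_iff₀ hcon] at hn
  have h2 := h1 (n + 1) (by omega)
  push_cast at h2
  nlinarith

lemma GT_unit (κ : Cardinal.{u}) (hκ : ℵ₀ ≤ κ) (P : Type u) : HasOrderUnit (GT κ hκ P) := by
  have h1 : (fun _ _ _ => 1 : P → P → ℕ → ℝ) ∈ GT κ hκ P := by
    refine ⟨fun p q => ?_, ?_, ∅, ?_, ?_, 1, ?_⟩
    · have := GY_const 1
      simpa using this
    · refine (Set.finite_singleton (fun _ => 1 : ℕ → ℝ)).subset ?_
      rintro _ ⟨pq, rfl⟩
      rfl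
    · simp
    · intro p
      exact ⟨fun _ => 1, fun q _ => ⟨rfl, rfl⟩⟩
    · intro p _ q _
      ext k; simp
  refine ⟨⟨_, h1⟩, ?_, ?_⟩
  · intro p q k
    exact zero_le_one
  · rintro ⟨x, hx⟩
    obtain ⟨hGY, hfin, -⟩ := hx
    -- bound on the finite range
    have hb : ∀ s : Set (ℕ → ℝ), s.Finite → (∀ f ∈ s, GY f) → ∃ n : ℕ, ∀ f ∈ s, ∀ k, f k ≤ n := by
      intro s hs
      induction s, hs using Set.Finite.induction_on with
      | empty => intro _; exact ⟨0, fun f hf => absurd hf (Set.notMem_empty f)⟩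
      | @insert f s _ _ ih =>
        intro hs
        obtain ⟨n, hn⟩ := ih fun g hg => hs g (Set.mem_insert_of_mem _ hg)
        obtain ⟨m, hm⟩ := GY_bdd (hs f (Set.mem_insert _ _))
        refine ⟨n + m, ?_⟩
        rintro g (rfl | hg) k
        · have := (le_abs_self (g k)).trans (hm k)
          push_cast
          linarith [Nat.cast_nonneg (α := ℝ) n]
        · have := hn g hg k
          push_cast
          linarith [Nat.cast_nonneg (α := ℝ) m]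
    obtain ⟨n, hn⟩ := hb _ hfin (by rintro _ ⟨pq, rfl⟩; exact hGY _ _)
    refine ⟨n + 1, by omega, ?_⟩
    intro p q k
    have h2 := hn _ ⟨(p, q), rfl⟩ k
    have h3 : (((n + 1) • (⟨_, h1⟩ : GT κ hκ P) : GT κ hκ P) : P → P → ℕ → ℝ) p q k = n + 1 := by
      simp
    show x p q k ≤ _
    rw [h3]
    simp only at h2
    linarith

end Pool.Agent.H47.LInf
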