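import Pool.Agent.H47.LInf.Rep2

set_option autoImplicit false

namespace Pool.Agent.H47.LInf

open Cardinal Filter Topology

universe u

/-- canonical preimage -/
noncomputable def fx (x : Pt) : ℕ → ℝ := by
  classical
  exact fun k => if k ∈ x.1 then (if x.2 = 1 then (1 / 2 : ℝ) ^ k else 1) else 0

lemma fx_bot : fx ⊥ = fun _ => ((0 : ℤ) : ℝ) := by
  ext k
  simp [fx]

lemma fx_top : fx ⊤ = fun _ => ((1 : ℤ) : ℝ) := by
  ext k
  have h2 : (⊤ : Fin 3) ≠ 1 := by decide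
  simp [fx, h2]

lemma fx_ev {x : Pt} (hx : DY x) : ∀ᶠ k in atTop, fx x k =
    ((if x.2 = 2 then 1 else 0 : ℤ) : ℝ) + ((if x.2 = 1 then 1 else 0 : ℤ) : ℝ) * (1 / 2 : ℝ) ^ k := by
  by_cases h0 : x.2 = 0
  · have h1 : ∀ᶠ k in cofinite, k ∉ x.1 := (hx.1 h0).compl_mem_cofinite
    rw [Nat.cofinite_eq_atTop] at h1
    filter_upwards [h1] with k hk
    simp [fx, hk, h0]
  · have h1 : ∀ᶠ k in cofinite, k ∈ x.1 := hx.2 h0
    rw [Nat.cofinite_eq_atTop] at h1
    filter_upwards [h1] with k hk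
    by_cases h2 : x.2 = 1
    · simp [fx, hk, h2]
    · have h3 : x.2 = 2 := by
        have := x.2.isLt
        apply Fin.ext
        have h4 : (x.2 : ℕ) ≠ 0 := fun h => h0 (Fin.ext h)
        have h5 : (x.2 : ℕ) ≠ 1 := fun h => h2 (Fin.ext h)
        show (x.2 : ℕ) = 2
        omega
      simp [fx, hk, h3]

lemma fx_GY {x : Pt} (hx : DY x) : GY (fx x) := ⟨_, _, fx_ev hx⟩

lemma sY_fx {x : Pt} (hx : DY x) : sY (fx x) = x := by
  apply Prod.ext
  · rw [sY_fst]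
    ext k
    simp only [Set.mem_ofPred_eq, fx]
    by_cases hk : k ∈ x.1
    · simp only [hk, if_true, iff_true]
      split_ifs
      · positivity
      · exact one_ne_zero
    · simp [hk]
  · have hev := fx_ev hx
    have h3 : x.2 = 0 ∨ x.2 = 1 ∨ x.2 = 2 := by
      have := x.2.isLt
      rcases x.2 with ⟨j, hj⟩
      interval_cases j
      · left; rfl
      · right; left; rfl
      · right; right; rfl
    rcases h3 with h | h | h
    · rw [h]
      apply sY_snd_zero hev <;> simp [h]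
    · rw [h]
      apply sY_snd_one hev <;> simp [h]
    · rw [h]
      apply sY_snd_two hev; simp [h]

variable {κ : Cardinal.{u}} {hκ : ℵ₀ ≤ κ} {P : Type u}

lemma sigma_mem (g : GT κ hκ P) : (fun p q => sY ((g : P → P → ℕ → ℝ) p q)) ∈ Gam (Equiv.refl ℕ) κ hκ P := by
  obtain ⟨g, h1, h2, S, hk, h3, c, h4⟩ := g
  refine ⟨fun p q => DY_sY (h1 p q), ?_, S, hk, ?_, sY (fun _ => (c : ℝ)), sY_const c, ?_⟩
  · refine (h2.image sY).subset ?_
    rintro _ ⟨pq, rfl⟩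
    exact ⟨_, ⟨pq, rfl⟩, rfl⟩
  · intro p
    obtain ⟨f, hf⟩ := h3 p
    refine ⟨sY f, fun q hq => ?_⟩
    simp only
    rw [(hf q hq).1, (hf q hq).2]
    exact ⟨rfl, rfl⟩
  · intro p hp q hq
    simp only
    rw [h4 p hp q hq]

/-- the support map of the group -/
noncomputable def sigma (g : GT κ hκ P) : Gam (Equiv.refl ℕ) κ hκ P := ⟨_, sigma_mem g⟩

lemma sigma_surj : Function.Surjective (sigma : GT κ hκ P → Gam (Equiv.refl ℕ) κ hκ P) := by
  rintro ⟨d, h1, h2, S, hk, h3, c, hc, h4⟩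
  have hmem : (fun p q => fx (d p q)) ∈ GT κ hκ P := by
    have hc' : ∃ c' : ℤ, fx c = fun _ => (c' : ℝ) := by
      rcases hc with rfl | rfl
      · exact ⟨0, fx_bot⟩
      · exact ⟨1, fx_top⟩
    obtain ⟨c', hc'⟩ := hc'
    refine ⟨fun p q => fx_GY (h1 p q), ?_, S, hk, ?_, c', ?_⟩
    · refine (h2.image fx).subset ?_
      rintro _ ⟨pq, rfl⟩
      exact ⟨_, ⟨pq, rfl⟩, rfl⟩
    · intro p
      obtain ⟨x, hx⟩ := h3 p
      refine ⟨fx x, fun q hq => ?_⟩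
      simp only
      rw [(hx q hq).1, (hx q hq).2]
      exact ⟨rfl, rfl⟩
    · intro p hp q hq
      simp only
      rw [h4 p hp q hq, hc']
  refine ⟨⟨_, hmem⟩, ?_⟩
  apply Subtype.ext
  funext p q
  exact sY_fx (h1 p q)

lemma sigma_le_iff (g g' : GT κ hκ P) : sigma g ≤ sigma g' ↔ ∃ n : ℕ, |g| ≤ n • |g'| := by
  have hnsmul : ∀ (n : ℕ) (p q : P) (k : ℕ),
      ((n • |g'| : GT κ hκ P) : P → P → ℕ → ℝ) p q k = n * |(g' : P → P → ℕ → ℝ) p q k| := by
    intro n p q k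
    have : ((n • |g'| : GT κ hκ P) : P → P → ℕ → ℝ) = n • ((|g'| : GT κ hκ P) : P → P → ℕ → ℝ) := rfl
    rw [this]
    simp only [Pi.smul_apply, nsmul_eq_mul]
    rw [GT_abs]
  constructor
  · intro h
    -- finitely many pairs
    have hfin : (Set.range (fun pq : P × P => (((g : P → P → ℕ → ℝ) pq.1 pq.2),
        ((g' : P → P → ℕ → ℝ) pq.1 pq.2)))).Finite := by
      refine (g.2.2.1.prod g'.2.2.1).subset ?_
      rintro _ ⟨pq, rfl⟩
      exact ⟨⟨pq, rfl⟩, ⟨pq, rfl⟩⟩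
    have hb : ∀ s : Set ((ℕ → ℝ) × (ℕ → ℝ)), s.Finite →
        (∀ f ∈ s, ∃ n : ℕ, ∀ k, |f.1 k| ≤ n * |f.2 k|) →
        ∃ n : ℕ, ∀ f ∈ s, ∀ k, |f.1 k| ≤ n * |f.2 k| := by
      intro s hs
      induction s, hs using Set.Finite.induction_on with
      | empty => intro _; exact ⟨0, fun f hf => absurd hf (Set.notMem_empty f)⟩
      | @insert f s _ _ ih =>
        intro hs
        obtain ⟨n, hn⟩ := ih fun g hg => hs g (Set.mem_insert_of_mem _ hg)
        obtain ⟨m, hm⟩ := hs f (Set.mem_insert _ _)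
        refine ⟨n + m, ?_⟩
        rintro g (rfl | hg) k
        · have := hm k
          push_cast
          nlinarith [Nat.cast_nonneg (α := ℝ) n, abs_nonneg (g.2 k)]
        · have := hn g hg k
          push_cast
          nlinarith [Nat.cast_nonneg (α := ℝ) m, abs_nonneg (g.2 k)]
    obtain ⟨n, hn⟩ := hb _ hfin (by
      rintro _ ⟨pq, rfl⟩
      exact (sY_le_iff (g.2.1 _ _) (g'.2.1 _ _)).1 (h pq.1 pq.2))
    refine ⟨n, fun p q k => ?_⟩
    have h2 := hn _ ⟨(p, q), rfl⟩ k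
    have h3 := hnsmul n p q k
    have h4 := GT_abs g p q k
    show ((|g| : GT κ hκ P) : P → P → ℕ → ℝ) p q k ≤ ((n • |g'| : GT κ hκ P) : P → P → ℕ → ℝ) p q k
    rw [h3, h4]
    exact h2
  · rintro ⟨n, hn⟩ p q
    refine (sY_le_iff (g.2.1 _ _) (g'.2.1 _ _)).2 ⟨n, fun k => ?_⟩
    have h2 : ((|g| : GT κ hκ P) : P → P → ℕ → ℝ) p q k ≤ ((n • |g'| : GT κ hκ P) : P → P → ℕ → ℝ) p q k :=
      hn p q k
    rw [hnsmul, GT_abs] at h2
    exact h2

theorem inCu_untwisted (κ : Cardinal.{u}) (hκ : ℵ₀ ≤ κ) (P : Type u) :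
    InCu (Gam (Equiv.refl ℕ) κ hκ P) :=
  ⟨GT κ hκ P, inferInstance, inferInstance, inferInstance, GT_arch κ hκ P, GT_unit κ hκ P,
    iso_of_sigma sigma sigma_surj sigma_le_iff⟩

end Pool.Agent.H47.LInf
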